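import Pool.Agent.Lib.MP_4318ff_ag.Spec.A4
import Pool.Agent.Lib.MP_4318ff_ag.A.RegLin

/-!
# MP_4318ff_ag, `B/HartUV`: Hartogs for the intersection of two charts
-/

set_option autoImplicit false

namespace Pool.Agent.Lib.MP_4318ff_ag

open MvPolynomial
open scoped LinearAlgebra.Projectivization

section hartuv

variable {k : Type} [Field k] {r : ℕ} {C : Config k r}

theorem hartuv_gen1 (u : Chart C) (c : Fin 3 → k) : ev c / ev u.b ∈ u.R :=
  Algebra.subset_adjoin (Or.inl ⟨c, rfl⟩)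

theorem hartuv_gen2 (u : Chart C) {P : Pt k} (hP : P ∈ C.M) (c : Fin 3 → k) (hc : c ⬝ᵥ P.rep = 0) :
    ev c / ev (u.a P) ∈ u.R :=
  Algebra.subset_adjoin (Or.inr ⟨P, hP, c, hc, rfl⟩)

theorem hartuv_le (u : Chart C) (O : Subalgebra k (F k)) (h1 : ∀ c : Fin 3 → k, ev c / ev u.b ∈ O)
    (h2 : ∀ P ∈ C.M, ∀ c : Fin 3 → k, c ⬝ᵥ P.rep = 0 → ev c / ev (u.a P) ∈ O) : u.R ≤ O := by
  unfold Chart.R
  refine Algebra.adjoin_le ?_
  rintro z (⟨c, rfl⟩ | ⟨P, hP, c, hc, rfl⟩)
  · exact h1 c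
  · exact h2 P hP c hc

/-- every divisor has a uniformiser -/
theorem hartuv_unif (hC : CurveStmt) (hE : ExcStmt) {O : Subalgebra k (F k)} (hO : IsDiv C O) :
    ∃ π, IsUnif O π := by
  rcases hO with hO | ⟨P, -, hO⟩
  · exact (hC k O hO).1
  · obtain ⟨b, c, d, hl, hc, hd, -⟩ := id hO
    have hb : b ⬝ᵥ P.rep ≠ 0 := fun hb => reglin_zero b c d P.rep_nonzero hb hc hd hl
    exact ⟨_, ((hE k P).2 O hO).2.2.1 b c hb (hl.ne_zero 1) hc⟩

/-- a basis which contains a given form -/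
theorem hartuv_basis (b : Fin 3 → k) (hb : b ≠ 0) :
    ∃ c d : Fin 3 → k, LinearIndependent k ![c, b, d] := by
  obtain ⟨v, hv0, hv, -⟩ := reglin_line b b
  obtain ⟨d, hd, hbd⟩ := reglin_ext v b hb (by rw [dotProduct_comm]; exact hv)
  obtain ⟨i, hi⟩ := Function.ne_iff.mp hv0
  have hi' : v i ≠ 0 := hi
  refine ⟨Pi.single i 1, d, reglin_three (v := v) _ b d hbd (by rw [dotProduct_comm]; exact hv) hd ?_⟩
  rw [single_dotProduct, one_mul]
  exact hi'

/-- the exceptional curve over a point is unique -/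
theorem hartuv_exc (hX : ExcStmt) (P : Pt k) : {O : Subalgebra k (F k) | IsExc P O}.Subsingleton := by
  intro O hO O' hO'
  obtain ⟨b, c, d, hli, hc, hd, hloc⟩ := hO
  have h' := ((hX k P).2 O' hO').2.2.2 b c d hli hc hd
  ext f
  rw [hloc.2, h'.2]

/-- the curve of a form is unique -/
theorem hartuv_curve (hC : CurveStmt) (b : Fin 3 → k) (hb : b ≠ 0) :
    {O : Subalgebra k (F k) | IsCurve O ∧ ¬ UnitForm O b}.Subsingleton := by
  obtain ⟨c, d, hli⟩ := hartuv_basis b hb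
  have key : ∀ O : Subalgebra k (F k), IsCurve O → ¬ UnitForm O b →
      IsLoc (ev b / ev c) (ev d / ev c) (X 0) O := by
    intro O hO hnb
    obtain ⟨-, -, h3, h4⟩ := hC k O hO
    have hbc : LinearIndependent k ![b, c] := by
      rw [LinearIndependent.pair_iff]
      intro s t hst
      rw [Fintype.linearIndependent_iff] at hli
      have h1 := hli ![t, s, 0] (by
        rw [Fin.sum_univ_three]
        simp only [Matrix.cons_val_zero, Matrix.cons_val_one, Matrix.cons_val_two, Matrix.head_cons,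
          Matrix.tail_cons, zero_smul, add_zero]
        rw [← hst]
        abel)
      exact ⟨h1 1, h1 0⟩
    obtain ⟨hu, hunif⟩ := (h3 b hb).resolve_left hnb c hbc
    obtain ⟨p, hp, hloc⟩ := h4 c b d hli hu
    have hdvd : p ∣ X 0 := by
      by_contra hcon
      apply hunif.2.1
      rw [hloc]
      refine ⟨1, X 0, hcon, ?_⟩
      have h1 : cm (ev b / ev c) (ev d / ev c) (X 0) = ev b / ev c := by
        unfold cm
        rw [aeval_X]
        rfl
      have hne : ev b / ev c ≠ 0 := by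
        intro h0
        apply hunif.2.1
        rw [h0, inv_zero]
        exact O.zero_mem
      rw [h1, map_one, inv_mul_cancel₀ hne]
    have hirr : Irreducible (X 0 : MvPolynomial (Fin 2) k) := (MvPolynomial.X_prime).irreducible
    have hass : Associated p (X 0) := hp.associated_of_dvd hirr hdvd
    refine ⟨hirr, fun f => ?_⟩
    rw [hloc f]
    simp only [hass.dvd_iff_dvd_left]
  intro O hO O' hO'
  have h1 := key O hO.1 hO.2
  have h2 := key O' hO'.1 hO'.2
  ext f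
  rw [h1.2, h2.2]

end hartuv

theorem tHartUV : EvStmt → UnifStmt → HartStmt → MFinStmt → CurveStmt → ExcStmt → HartUVStmt := by
  intro hE hU hH hM hC hX k _ r C u v f hf
  classical
  have hev : ∀ a : Fin 3 → k, a ≠ 0 → ev a ≠ 0 := fun a ha h => ha (((hE k).2.2 a).mp h)
  have hfin := hM k r C
  have hub := hev _ u.b_ne
  have hvb := hev _ v.b_ne
  set S := hfin.toFinset with hS
  have hSM : ∀ P, P ∈ S ↔ P ∈ C.M := fun P => hfin.mem_toFinset
  have hua : ∀ P ∈ S, ev (u.a P) ≠ 0 := fun P hP => hev _ (u.a_ne P ((hSM P).1 hP))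
  have hva : ∀ P ∈ S, ev (v.a P) ≠ 0 := fun P hP => hev _ (v.a_ne P ((hSM P).1 hP))
  set Z : F k := (ev v.b / ev u.b) * ∏ P ∈ S, ev (v.a P) / ev (u.a P) with hZ
  have hZ0 : Z ≠ 0 := mul_ne_zero (div_ne_zero hvb hub)
    (Finset.prod_ne_zero_iff.2 fun P hP => div_ne_zero (hva P hP) (hua P hP))
  have hZu : Z ∈ u.R := mul_mem (hartuv_gen1 u _)
    (prod_mem fun P hP => hartuv_gen2 u ((hSM P).1 hP) _ (v.a_through P ((hSM P).1 hP)))
  have hZinv : Z⁻¹ = (ev u.b / ev v.b) * ∏ P ∈ S, ev (u.a P) / ev (v.a P) := by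
    rw [hZ, mul_inv, inv_div, ← Finset.prod_inv_distrib]
    congr 1
    exact Finset.prod_congr rfl fun P _ => inv_div _ _
  have hZv : Z⁻¹ ∈ v.R := by
    rw [hZinv]
    exact mul_mem (hartuv_gen1 v _)
      (prod_mem fun P hP => hartuv_gen2 v ((hSM P).1 hP) _ (u.a_through P ((hSM P).1 hP)))
  -- if `Z` is a unit of `O`
  have hunit : ∀ O : Subalgebra k (F k), u.R ≤ O → Z⁻¹ ∈ O → v.R ≤ O := by
    intro O hO hZO
    have g1 : ev v.b / ev u.b ∈ O := hO (hartuv_gen1 u _)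
    have g2 : ∀ P ∈ S, ev (v.a P) / ev (u.a P) ∈ O := fun P hP =>
      hO (hartuv_gen2 u ((hSM P).1 hP) _ (v.a_through P ((hSM P).1 hP)))
    have i1 : ev u.b / ev v.b ∈ O := by
      have h1 := O.mul_mem hZO (O.prod_mem g2)
      have h2 : Z⁻¹ * ∏ P ∈ S, ev (v.a P) / ev (u.a P) = ev u.b / ev v.b := by
        have h3 : ∏ P ∈ S, ev (v.a P) / ev (u.a P) ≠ 0 :=
          Finset.prod_ne_zero_iff.2 fun P hP => div_ne_zero (hva P hP) (hua P hP)
        rw [hZ, mul_inv, inv_div, mul_assoc, inv_mul_cancel₀ h3, mul_one]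
      rw [h2] at h1
      exact h1
    have i2 : ∀ P ∈ S, ev (u.a P) / ev (v.a P) ∈ O := by
      intro P hP
      have h1 := O.mul_mem hZO (O.mul_mem g1 (O.prod_mem (t := S.erase P)
        fun Q hQ => g2 Q (Finset.mem_of_mem_erase hQ)))
      have h2 : Z⁻¹ * (ev v.b / ev u.b * ∏ Q ∈ S.erase P, ev (v.a Q) / ev (u.a Q)) =
          ev (u.a P) / ev (v.a P) := by
        have h3 : Z = (ev v.b / ev u.b * ∏ Q ∈ S.erase P, ev (v.a Q) / ev (u.a Q)) *
            (ev (v.a P) / ev (u.a P)) := by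
          rw [hZ, ← Finset.mul_prod_erase S _ hP]
          ring
        have h4 : ev v.b / ev u.b * ∏ Q ∈ S.erase P, ev (v.a Q) / ev (u.a Q) ≠ 0 :=
          mul_ne_zero (div_ne_zero hvb hub) (Finset.prod_ne_zero_iff.2 fun Q hQ =>
            div_ne_zero (hva Q (Finset.mem_of_mem_erase hQ)) (hua Q (Finset.mem_of_mem_erase hQ)))
        rw [h3, mul_inv, mul_comm _ (ev (v.a P) / ev (u.a P))⁻¹, mul_assoc, inv_mul_cancel₀ h4,
          mul_one, inv_div]
      rw [h2] at h1
      exact h1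
    refine hartuv_le v O ?_ ?_
    · intro c
      have h1 := O.mul_mem (hO (hartuv_gen1 u c)) i1
      have h2 : ev c / ev u.b * (ev u.b / ev v.b) = ev c / ev v.b := by field_simp
      rw [h2] at h1
      exact h1
    · intro P hP c hc
      have hP' := (hSM P).2 hP
      have h1 := O.mul_mem (hO (hartuv_gen2 u hP c hc)) (i2 P hP')
      have h2 : ev c / ev (u.a P) * (ev (u.a P) / ev (v.a P)) = ev c / ev (v.a P) := by
        have h3 := hua P hP'
        field_simp
      rw [h2] at h1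
      exact h1
  -- for every divisor a power of `Z` is enough
  have hpow : ∀ O : Subalgebra k (F k), IsDiv C O → u.R ≤ O → ∃ N : ℕ, Z ^ N * f ∈ O := by
    intro O hO huO
    by_cases hZO : Z⁻¹ ∈ O
    · exact ⟨0, by rw [pow_zero, one_mul]; exact hf O hO huO (hunit O huO hZO)⟩
    · obtain ⟨π, hπ⟩ := hartuv_unif hC hX hO
      by_cases hf0 : f = 0
      · exact ⟨0, by rw [hf0, mul_zero]; exact O.zero_mem⟩
      have hπ0 : π ≠ 0 := by
        rintro rfl
        exact hπ.2.1 (by rw [inv_zero]; exact O.zero_mem)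
      have hq : Z / π ∈ O := (hU k O π hπ).2.2.1 Z (huO hZu) hZO
      obtain ⟨e, w, hw, -, hfe⟩ := hπ.2.2 f hf0
      refine ⟨e.natAbs, ?_⟩
      have h1 : Z ^ e.natAbs * f = (Z / π) ^ e.natAbs * (π ^ ((e.natAbs : ℤ) + e) * w) := by
        rw [hfe, div_pow, zpow_add₀ hπ0, zpow_natCast]
        field_simp
      rw [h1]
      refine O.mul_mem (O.pow_mem hq _) (O.mul_mem ?_ hw)
      have h2 : 0 ≤ (e.natAbs : ℤ) + e := by omega
      obtain ⟨m, hm⟩ := Int.eq_ofNat_of_zero_le h2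
      rw [hm, zpow_natCast]
      exact O.pow_mem hπ.1 m
  -- finitely many bad divisors
  have hbad : {O : Subalgebra k (F k) | IsDiv C O ∧ u.R ≤ O ∧ Z⁻¹ ∉ O}.Finite := by
    set B : Set (Fin 3 → k) := insert v.b (v.a '' C.M) with hB
    have hBfin : B.Finite := (hfin.image _).insert _
    have hsub : {O : Subalgebra k (F k) | IsDiv C O ∧ u.R ≤ O ∧ Z⁻¹ ∉ O} ⊆
        (⋃ P ∈ C.M, {O | IsExc P O}) ∪ (⋃ b ∈ B, {O | IsCurve O ∧ ¬ UnitForm O b}) := by
      rintro O ⟨hO, huO, hZO⟩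
      rcases hO with hO | ⟨P, hP, hO⟩
      · right
        rw [Set.mem_iUnion₂]
        by_contra hcon
        push Not at hcon
        have h1 : ∀ b ∈ B, UnitForm O b := by
          intro b hb
          by_contra h2
          exact hcon b hb ⟨hO, h2⟩
        apply hZO
        rw [hZinv]
        refine O.mul_mem ((h1 v.b (Set.mem_insert _ _)).2 _) (O.prod_mem fun P hP => ?_)
        exact (h1 (v.a P) (Set.mem_insert_of_mem _ ⟨P, (hSM P).1 hP, rfl⟩)).2 _
      · left
        rw [Set.mem_iUnion₂]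
        exact ⟨P, hP, hO⟩
    refine Set.Finite.subset (Set.Finite.union ?_ ?_) hsub
    · exact hfin.biUnion fun P _ => (hartuv_exc hX P).finite
    · refine hBfin.biUnion fun b hb => (hartuv_curve hC b ?_).finite
      rw [hB, Set.mem_insert_iff] at hb
      rcases hb with rfl | ⟨P, hP, rfl⟩
      · exact v.b_ne
      · exact v.a_ne P hP
  choose! N hN using hpow
  set T := hbad.toFinset.sup N with hT
  have hfinal : Z ^ T * f ∈ u.R := by
    refine hH k r C u _ fun O hO huO => ?_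
    by_cases hZO : Z⁻¹ ∈ O
    · exact O.mul_mem (O.pow_mem (huO hZu) _) (hf O hO huO (hunit O huO hZO))
    · have h1 : N O ≤ T := Finset.le_sup (hbad.mem_toFinset.2 ⟨hO, huO, hZO⟩)
      obtain ⟨m, hm⟩ := Nat.exists_eq_add_of_le h1
      rw [hm, pow_add, mul_comm (Z ^ N O), mul_assoc]
      exact O.mul_mem (O.pow_mem (huO hZu) _) (hN O hO huO)
  have h1 : f = Z⁻¹ ^ T * (Z ^ T * f) := by
    rw [← mul_assoc, ← mul_pow, inv_mul_cancel₀ hZ0, one_pow, one_mul]
  rw [h1]
  exact mul_mem (pow_mem ((le_sup_right : v.R ≤ u.R ⊔ v.R) hZv) _)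
    ((le_sup_left : u.R ≤ u.R ⊔ v.R) hfinal)

end Pool.Agent.Lib.MP_4318ff_ag
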