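import Pool.Agent.Lib.MP_4318ff_ag.Spec.A4
import Pool.Agent.Lib.MP_4318ff_ag.A.Ev

/-!
# The ring of the intersection of two charts
-/

set_option autoImplicit false

namespace Pool.Agent.Lib.MP_4318ff_ag

section

variable {k : Type} [Field k] {r : ℕ}

/-- Multiples by powers of `f` of the elements of a generated algebra. -/
theorem overlap_adjoin {S : Subalgebra k (F k)} {f : F k} (hf : f ∈ S) {X : Set (F k)}
    (hX : ∀ y ∈ X, ∃ m : ℕ, f ^ m * y ∈ S) {y : F k} (hy : y ∈ Algebra.adjoin k X) : ∃ m : ℕ, f ^ m * y ∈ S := by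
  induction hy using Algebra.adjoin_induction with
  | mem y hy => exact hX y hy
  | algebraMap r => exact ⟨0, by rw [pow_zero, one_mul]; exact S.algebraMap_mem r⟩
  | add y z _ _ ihy ihz =>
    obtain ⟨m, hm⟩ := ihy
    obtain ⟨n, hn⟩ := ihz
    refine ⟨m + n, ?_⟩
    have : f ^ (m + n) * (y + z) = f ^ n * (f ^ m * y) + f ^ m * (f ^ n * z) := by ring
    rw [this]
    exact S.add_mem (S.mul_mem (S.pow_mem hf n) hm) (S.mul_mem (S.pow_mem hf m) hn)
  | mul y z _ _ ihy ihz =>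
    obtain ⟨m, hm⟩ := ihy
    obtain ⟨n, hn⟩ := ihz
    refine ⟨m + n, ?_⟩
    have : f ^ (m + n) * (y * z) = (f ^ m * y) * (f ^ n * z) := by ring
    rw [this]
    exact S.mul_mem hm hn

variable {K : Type} [Field K] [Algebra (F k) K]

theorem overlap_ic_iff {S : Subalgebra k (F k)} {x : K} :
    x ∈ ic K S ↔ ∃ p : Polynomial (F k), p.Monic ∧ (∀ i, p.coeff i ∈ S) ∧ Polynomial.aeval x p = 0 := by
  constructor
  · rintro ⟨p, hp, h⟩
    refine ⟨p.map (algebraMap S (F k)), hp.map _, fun i => ?_, ?_⟩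
    · rw [Polynomial.coeff_map]
      exact (p.coeff i).2
    · rw [Polynomial.aeval_map_algebraMap]
      exact h
  · rintro ⟨p, hp, hc, h⟩
    have hsub : (↑p.coeffs : Set (F k)) ⊆ S.toSubring := by
      intro a ha
      obtain ⟨i, _, rfl⟩ := Polynomial.mem_coeffs_iff.1 (Finset.mem_coe.1 ha)
      exact hc i
    refine ⟨p.toSubring S.toSubring hsub, (Polynomial.monic_toSubring p S.toSubring hsub).2 hp, ?_⟩
    have h1 : (p.toSubring S.toSubring hsub).map (Subring.subtype S.toSubring) = p :=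
      Polynomial.map_toSubring p S.toSubring hsub
    have h2 : algebraMap S K = (algebraMap (F k) K).comp (Subring.subtype S.toSubring) := rfl
    rw [h2, ← Polynomial.eval₂_map, h1]
    exact h

theorem overlap_ic_of_mem {S : Subalgebra k (F k)} {f : F k} (hf : f ∈ S) : algebraMap (F k) K f ∈ ic K S :=
  isIntegral_algebraMap (R := S) (A := K) (x := ⟨f, hf⟩)

theorem overlap_ic_mono {S T : Subalgebra k (F k)} (h : S ≤ T) : ic K S ≤ ic K T := by
  intro x hx
  obtain ⟨p, hp, hc, h0⟩ := overlap_ic_iff.1 hx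
  exact overlap_ic_iff.2 ⟨p, hp, fun i => h (hc i), h0⟩

theorem overlap_denom {S T : Subalgebra k (F k)} {f : F k} (hf : f ∈ S)
    (hT : ∀ y ∈ T, ∃ m : ℕ, f ^ m * y ∈ S) {x : K} (hx : x ∈ ic K T) :
    ∃ m : ℕ, algebraMap (F k) K (f ^ m) * x ∈ ic K S := by
  obtain ⟨p, hp, hc, h0⟩ := overlap_ic_iff.1 hx
  choose m hm using fun i => hT _ (hc i)
  set M := ∑ i ∈ Finset.range p.natDegree, m i with hM
  have h1 : ∀ i < p.natDegree, f ^ M * p.coeff i ∈ S := by
    intro i hi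
    have h2 : m i ≤ M := Finset.single_le_sum (fun _ _ => Nat.zero_le _) (Finset.mem_range.2 hi)
    have h3 : f ^ M * p.coeff i = f ^ (M - m i) * (f ^ m i * p.coeff i) := by
      rw [← mul_assoc, ← pow_add]
      congr 2
      omega
    rw [h3]
    exact S.mul_mem (S.pow_mem hf _) (hm i)
  refine ⟨M, overlap_ic_iff.2 ⟨p.scaleRoots (f ^ M), (Polynomial.monic_scaleRoots_iff _).2 hp, fun i => ?_, ?_⟩⟩
  · rw [Polynomial.coeff_scaleRoots]
    rcases lt_trichotomy i p.natDegree with hi | hi | hi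
    · obtain ⟨e, he⟩ : ∃ e, p.natDegree - i = e + 1 := ⟨p.natDegree - i - 1, by omega⟩
      rw [he, pow_succ]
      have : p.coeff i * ((f ^ M) ^ e * f ^ M) = (f ^ M) ^ e * (f ^ M * p.coeff i) := by ring
      rw [this]
      exact S.mul_mem (S.pow_mem (S.pow_mem hf _) _) (h1 i hi)
    · rw [hi, Nat.sub_self, pow_zero, mul_one]
      have : p.coeff p.natDegree = 1 := hp
      rw [this]
      exact S.one_mem
    · rw [Polynomial.coeff_eq_zero_of_natDegree_lt hi, zero_mul]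
      exact S.zero_mem
  · exact Polynomial.scaleRoots_aeval_eq_zero h0

end

theorem overlap_ev_ne (hE : EvStmt) {k : Type} [Field k] {a : Fin 3 → k} (ha : a ≠ 0) : ev a ≠ 0 := by
  intro h
  exact ha (((hE k).2.2 a).1 h)

theorem overlap_main : EvStmt → MFinStmt → OverlapStmt := by
  intro hE hM k _ r C K _ _ u v
  classical
  have hfin := hM k r C
  set Ms := hfin.toFinset with hMs
  have hMs' : ∀ P, P ∈ Ms ↔ P ∈ C.M := fun P => hfin.mem_toFinset
  have hb : ∀ w : Chart C, ev w.b ≠ 0 := fun w => overlap_ev_ne hE w.b_ne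
  have ha : ∀ (w : Chart C) (P) (_ : P ∈ Ms), ev (w.a P) ≠ 0 := fun w P hP => overlap_ev_ne hE (w.a_ne P ((hMs' P).1 hP))
  -- generators of the charts
  have hgb : ∀ (w : Chart C) (c : Fin 3 → k), ev c / ev w.b ∈ w.R := fun w c =>
    Algebra.subset_adjoin (Or.inl ⟨c, rfl⟩)
  have hga : ∀ (w : Chart C) (P) (_ : P ∈ Ms) (c : Fin 3 → k), c ⬝ᵥ P.rep = 0 → ev c / ev (w.a P) ∈ w.R :=
    fun w P hP c hc => Algebra.subset_adjoin (Or.inr ⟨P, (hMs' P).1 hP, c, hc, rfl⟩)
  have hfac : ∀ (w w' : Chart C) (P) (_ : P ∈ Ms), ev (w'.a P) / ev (w.a P) ∈ w.R := fun w w' P hP =>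
    hga w P hP _ (w'.a_through P ((hMs' P).1 hP))
  -- the element X
  let X : Chart C → Chart C → F k := fun w w' => ev w'.b / ev w.b * ∏ P ∈ Ms, ev (w'.a P) / ev (w.a P)
  have hX : ∀ w w', X w w' ∈ w.R := fun w w' =>
    w.R.mul_mem (hgb w _) (w.R.prod_mem fun P hP => hfac w w' P hP)
  have hXX : X u v * X v u = 1 := by
    change (ev v.b / ev u.b * ∏ P ∈ Ms, ev (v.a P) / ev (u.a P)) *
      (ev u.b / ev v.b * ∏ P ∈ Ms, ev (u.a P) / ev (v.a P)) = 1
    have h1 : (∏ P ∈ Ms, ev (v.a P) / ev (u.a P)) * ∏ P ∈ Ms, ev (u.a P) / ev (v.a P) = 1 := by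
      rw [← Finset.prod_mul_distrib]
      refine Finset.prod_eq_one fun P hP => ?_
      have h1 := ha u P hP
      have h2 := ha v P hP
      field_simp
    have h2 : ev v.b / ev u.b * (ev u.b / ev v.b) = 1 := by
      have h1 := hb u
      have h2 := hb v
      field_simp
    calc _ = (ev v.b / ev u.b * (ev u.b / ev v.b)) *
        ((∏ P ∈ Ms, ev (v.a P) / ev (u.a P)) * ∏ P ∈ Ms, ev (u.a P) / ev (v.a P)) := by ring
      _ = 1 := by rw [h1, h2, one_mul]
  -- denominators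
  have hden : ∀ y ∈ u.R ⊔ v.R, ∃ m : ℕ, X u v ^ m * y ∈ u.R := by
    intro y hy
    have hsup : u.R ⊔ v.R = Algebra.adjoin k
        (({z | ∃ c : Fin 3 → k, z = ev c / ev u.b} ∪
          {z | ∃ P ∈ C.M, ∃ c : Fin 3 → k, c ⬝ᵥ P.rep = 0 ∧ z = ev c / ev (u.a P)}) ∪
        ({z | ∃ c : Fin 3 → k, z = ev c / ev v.b} ∪
          {z | ∃ P ∈ C.M, ∃ c : Fin 3 → k, c ⬝ᵥ P.rep = 0 ∧ z = ev c / ev (v.a P)})) := by
      rw [Algebra.adjoin_union]
      rfl
    rw [hsup] at hy
    refine overlap_adjoin (hX u v) ?_ hy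
    rintro y ((⟨c, rfl⟩ | ⟨P, hP, c, hc, rfl⟩) | (⟨c, rfl⟩ | ⟨P, hP, c, hc, rfl⟩))
    · exact ⟨0, by rw [pow_zero, one_mul]; exact hgb u c⟩
    · exact ⟨0, by rw [pow_zero, one_mul]; exact hga u P ((hMs' P).2 hP) c hc⟩
    · refine ⟨1, ?_⟩
      rw [pow_one]
      have h1 : X u v * (ev c / ev v.b) = ev c / ev u.b * ∏ P ∈ Ms, ev (v.a P) / ev (u.a P) := by
        have h1 := hb u
        have h2 := hb v
        change (ev v.b / ev u.b * ∏ P ∈ Ms, ev (v.a P) / ev (u.a P)) * (ev c / ev v.b) = _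
        field_simp
      rw [h1]
      exact u.R.mul_mem (hgb u _) (u.R.prod_mem fun P hP => hfac u v P hP)
    · refine ⟨1, ?_⟩
      have hP' := (hMs' P).2 hP
      rw [pow_one]
      have h1 : X u v * (ev c / ev (v.a P)) = ev v.b / ev u.b * (ev c / ev (u.a P)) *
          ∏ P ∈ Ms.erase P, ev (v.a P) / ev (u.a P) := by
        have h1 := ha u P hP'
        have h2 := ha v P hP'
        change (ev v.b / ev u.b * ∏ P ∈ Ms, ev (v.a P) / ev (u.a P)) * (ev c / ev (v.a P)) = _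
        rw [← Finset.mul_prod_erase Ms _ hP']
        field_simp
      rw [h1]
      exact u.R.mul_mem (u.R.mul_mem (hgb u _) (hga u P hP' c hc))
        (u.R.prod_mem fun P hP => hfac u v P (Finset.mem_of_mem_erase hP))
  apply le_antisymm
  · intro y hy
    obtain ⟨m, hm⟩ := overlap_denom (hX u v) hden hy
    have h1 : y = (algebraMap (F k) K (X u v ^ m) * y) * algebraMap (F k) K (X v u ^ m) := by
      rw [mul_right_comm, ← map_mul, ← mul_pow, hXX, one_pow, map_one, one_mul]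
    rw [h1]
    have h2 : algebraMap (F k) K (X v u ^ m) ∈ v.A K := overlap_ic_of_mem (v.R.pow_mem (hX v u) m)
    have hle1 : u.A K ≤ u.A K ⊔ v.A K := le_sup_left
    have hle2 : v.A K ≤ u.A K ⊔ v.A K := le_sup_right
    exact (u.A K ⊔ v.A K).mul_mem (hle1 hm) (hle2 h2)
  · exact sup_le (overlap_ic_mono le_sup_left) (overlap_ic_mono le_sup_right)

theorem tOverlap : MFinStmt → OverlapStmt := overlap_main tEv

end Pool.Agent.Lib.MP_4318ff_ag
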