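import Pool.Agent.Lib.MP_4318ff_ag.Spec.A4

/-!
# Every divisor over the part `a ≠ 0` of a pencil lies in a chart with `a P = a`
-/

set_option autoImplicit false

namespace Pool.Agent.Lib.MP_4318ff_ag

theorem tChartExA : ChartExStmt → ChartExAStmt := by
  intro hC k _ r C O P a hO hP ha haP hPR
  classical
  obtain ⟨u, hu⟩ := hC k r C O hO
  refine ⟨⟨u.b, u.b_ne, Function.update u.a P a, ?_, ?_⟩, ?_, Function.update_self P a u.a⟩
  · intro Q hQ
    by_cases h : Q = P
    · rw [h, Function.update_self]
      exact ha
    · rw [Function.update_of_ne h]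
      exact u.a_ne Q hQ
  · intro Q hQ
    by_cases h : Q = P
    · rw [h, Function.update_self]
      exact haP
    · rw [Function.update_of_ne h]
      exact u.a_through Q hQ
  · apply Algebra.adjoin_le
    rintro z (⟨c, rfl⟩ | ⟨Q, hQ, c, hc, rfl⟩)
    · exact hu (Algebra.subset_adjoin (Or.inl ⟨c, rfl⟩))
    · by_cases h : Q = P
      · subst h
        refine hPR (Algebra.subset_adjoin ⟨c, hc, ?_⟩)
        change ev c / ev (Function.update u.a Q a Q) = _
        rw [Function.update_self]
      · have h1 : ev c / ev (u.a Q) ∈ u.R := Algebra.subset_adjoin (Or.inr ⟨Q, hQ, c, hc, rfl⟩)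
        change ev c / ev (Function.update u.a P a Q) ∈ O
        rw [Function.update_of_ne h]
        exact hu h1

end Pool.Agent.Lib.MP_4318ff_ag
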