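import Pool.Agent.Lib.MP_4318ff_ag.Spec.A4
import Pool.Agent.Lib.MP_4318ff_ag.A.RegLin

/-!
# Functions which are regular over a part of a pencil
-/

set_option autoImplicit false

namespace Pool.Agent.Lib.MP_4318ff_ag

open scoped LinearAlgebra.Projectivization
open MvPolynomial

section

variable {k : Type} [Field k]

/-- The value of a polynomial in `x` with coefficients in `k[λ]`. -/
noncomputable def globp_ev (l x : F k) : Polynomial (Polynomial k) →+* F k :=
  Polynomial.eval₂RingHom (Polynomial.aeval l).toRingHom x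

theorem globp_ev_X (l x : F k) : globp_ev l x Polynomial.X = x := by
  simp [globp_ev]

theorem globp_ev_C (l x : F k) (q : Polynomial k) : globp_ev l x (Polynomial.C q) = Polynomial.aeval l q := by
  simp [globp_ev]

theorem globp_ev_eq_sum (l x : F k) (P : Polynomial (Polynomial k)) :
    globp_ev l x P = ∑ i ∈ Finset.range (P.natDegree + 1), Polynomial.aeval l (P.coeff i) * x ^ i := by
  conv_lhs => rw [P.as_sum_range]
  rw [map_sum]
  refine Finset.sum_congr rfl fun i _ => ?_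
  rw [← Polynomial.C_mul_X_pow_eq_monomial, map_mul, map_pow, globp_ev_X, globp_ev_C]

theorem globp_exists_ev (l x : F k) (G : MvPolynomial (Fin 2) k) :
    ∃ P : Polynomial (Polynomial k), globp_ev l x P = cm l x G := by
  induction G using MvPolynomial.induction_on with
  | C c => exact ⟨Polynomial.C (Polynomial.C c), by
      rw [globp_ev_C, Polynomial.aeval_C, cm, MvPolynomial.aeval_C]⟩
  | add P Q hP hQ =>
    obtain ⟨P', hP'⟩ := hP
    obtain ⟨Q', hQ'⟩ := hQ
    exact ⟨P' + Q', by rw [map_add, map_add, hP', hQ']⟩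
  | mul_X P i hP =>
    obtain ⟨P', hP'⟩ := hP
    fin_cases i
    · refine ⟨P' * Polynomial.C Polynomial.X, ?_⟩
      rw [map_mul, map_mul, hP', globp_ev_C, Polynomial.aeval_X]
      congr 1
      simp [cm]
    · refine ⟨P' * Polynomial.X, ?_⟩
      rw [map_mul, map_mul, hP', globp_ev_X]
      congr 1
      simp [cm]

/-- The reversed polynomial in `1/x, λ`. -/
noncomputable def globp_rv (P : Polynomial (Polynomial k)) : MvPolynomial (Fin 2) k :=
  ∑ i ∈ Finset.range (P.natDegree + 1),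
    Polynomial.aeval (X 1 : MvPolynomial (Fin 2) k) (P.coeff i) * X 0 ^ (P.natDegree - i)

theorem globp_cm_aeval (z w : F k) (f : Polynomial k) :
    cm z w (Polynomial.aeval (X 1 : MvPolynomial (Fin 2) k) f) = Polynomial.aeval w f := by
  rw [← Polynomial.aeval_algHom_apply]
  congr 2
  simp [cm]

theorem globp_cm_rv {l x : F k} (hx : x ≠ 0) (P : Polynomial (Polynomial k)) :
    cm x⁻¹ l (globp_rv P) * x ^ P.natDegree = globp_ev l x P := by
  unfold globp_rv
  rw [map_sum, globp_ev_eq_sum, Finset.sum_mul]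
  refine Finset.sum_congr rfl fun i hi => ?_
  have h0 : cm x⁻¹ l (X 0 : MvPolynomial (Fin 2) k) = x⁻¹ := by simp [cm]
  rw [map_mul, map_pow, h0, globp_cm_aeval]
  have hi' := Finset.mem_range.1 hi
  have : x ^ P.natDegree = x ^ (P.natDegree - i) * x ^ i := by
    rw [← pow_add]
    congr 1
    omega
  rw [this, inv_pow]
  field_simp

theorem globp_not_dvd {P : Polynomial (Polynomial k)} (hP : P ≠ 0) :
    ¬ (X 0 : MvPolynomial (Fin 2) k) ∣ globp_rv P := by
  intro hdvd
  let ψ : MvPolynomial (Fin 2) k →ₐ[k] Polynomial k := aeval ![0, Polynomial.X]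
  have hψ0 : ψ (X 0) = 0 := by simp [ψ]
  have hψ1 : ψ (X 1) = Polynomial.X := by simp [ψ]
  have h1 : ψ (globp_rv P) = 0 := by
    obtain ⟨G, hG⟩ := hdvd
    rw [hG, map_mul, hψ0, zero_mul]
  have h2 : ψ (globp_rv P) = P.leadingCoeff := by
    unfold globp_rv
    rw [map_sum, Finset.sum_eq_single P.natDegree]
    · rw [map_mul, map_pow, Nat.sub_self, pow_zero, mul_one, ← Polynomial.aeval_algHom_apply, hψ1]
      exact Polynomial.aeval_X_left_apply _
    · intro i hi hne
      have : P.natDegree - i ≠ 0 := by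
        have := Finset.mem_range.1 hi
        omega
      rw [map_mul, map_pow, hψ0, zero_pow this, mul_zero]
    · intro h
      exfalso
      apply h
      rw [Finset.mem_range]
      omega
  rw [h1] at h2
  exact hP (Polynomial.leadingCoeff_eq_zero.1 h2.symm)

/-- If all irreducible factors of `g` divide `q`, then `g` divides a power of `q`. -/
theorem globp_dvd_pow {g q : MvPolynomial (Fin 2) k} (hg : g ≠ 0) (h : ∀ p, Irreducible p → p ∣ g → p ∣ q) :
    ∃ N : ℕ, g ∣ q ^ N := by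
  induction g using WfDvdMonoid.induction_on_irreducible with
  | zero => exact absurd rfl hg
  | unit u hu => exact ⟨0, hu.dvd⟩
  | mul a p ha hp ih =>
    obtain ⟨N, hN⟩ := ih ha fun p' hp' hd => h p' hp' (hd.trans (dvd_mul_left _ _))
    refine ⟨N + 1, ?_⟩
    rw [pow_succ']
    exact mul_dvd_mul (h p hp (dvd_mul_right _ _)) hN

end

theorem tGlobP : EvStmt → CoordStmt → LocStmt → UnifStmt → CurveStmt → ExcStmt → GlobPStmt := by
  intro hE hCo hL _ _ hX k _ r C P a a' f hP ha0 ha'0 ha ha' hf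
  have hev : ∀ c : Fin 3 → k, c ≠ 0 → ev c ≠ 0 := fun c hc h => hc (((hE k).2.2 c).1 h)
  have hadd := (hE k).1
  have hsmul := (hE k).2.1
  obtain ⟨d, hd, had⟩ := reglin_ext P.rep a ha0 ha
  -- a form which does not vanish at `P`
  obtain ⟨i₀, hi₀⟩ := Function.ne_iff.mp P.rep_nonzero
  set b : Fin 3 → k := Pi.single i₀ 1 with hb
  have hbP : b ⬝ᵥ P.rep ≠ 0 := by
    rw [hb, single_dotProduct, one_mul]
    exact hi₀
  have h3 : LinearIndependent k ![b, a, d] := reglin_three b a d had ha hd hbP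
  have h3' : LinearIndependent k ![a, d, b] := reglin_rot b a d h3
  have hea := hev a ha0
  have hea' := hev a' ha'0
  have heb : ev b ≠ 0 := hev b (by rintro h; rw [h] at hbP; simp at hbP)
  set l := ev d / ev a with hl
  set x := ev b / ev a with hx
  have hx0 : x ≠ 0 := div_ne_zero heb hea
  have hcoord : IsCoord l x := (hCo k a d b h3').1
  have hxinv : ev a / ev b = x⁻¹ := by rw [hx, inv_div]
  -- forms through `P`
  have hform : ∀ c : Fin 3 → k, c ⬝ᵥ P.rep = 0 → ∃ s t : k, ev c / ev a = algebraMap k (F k) s + algebraMap k (F k) t * l := by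
    intro c hc
    obtain ⟨s, t, rfl⟩ := reglin_span a d c P.rep_nonzero had ha hd hc
    refine ⟨s, t, ?_⟩
    rw [hadd, hsmul, hsmul, hl]
    field_simp
  have hcm : ∀ s t : k, cm l x (MvPolynomial.C s + MvPolynomial.C t * X 0) = algebraMap k (F k) s + algebraMap k (F k) t * l := by
    intro s t
    rw [map_add, map_mul]
    simp [cm]
  obtain ⟨s', t', hq⟩ := hform a' ha'
  set q : MvPolynomial (Fin 2) k := MvPolynomial.C s' + MvPolynomial.C t' * X 0 with hqd
  have hqv : cm l x q = ev a' / ev a := by rw [hqd, hcm, hq]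
  have hqv0 : cm l x q ≠ 0 := by rw [hqv]; exact div_ne_zero hea' hea
  -- a reduced fraction
  obtain ⟨h₁, h₂, hh₂, hfr⟩ := hcoord.2 f
  obtain ⟨g₂, g₁, c, hrel, hc2, hc1⟩ := UniqueFactorizationMonoid.exists_reduced_factors h₂ hh₂ h₁
  have hg₂ : g₂ ≠ 0 := by
    rintro rfl
    rw [mul_zero] at hc2
    exact hh₂ hc2.symm
  have hc0 : c ≠ 0 := by
    rintro rfl
    rw [zero_mul] at hc2
    exact hh₂ hc2.symm
  have hcmne : ∀ G : MvPolynomial (Fin 2) k, G ≠ 0 → cm l x G ≠ 0 := fun G hG h =>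
    hG (hcoord.1 (by rw [h, map_zero]))
  have hfg : f * cm l x g₂ = cm l x g₁ := by
    have h1 := hcmne c hc0
    have h2 := hcmne g₂ hg₂
    rw [hfr, ← hc1, ← hc2, map_mul, map_mul]
    field_simp
  have hdiv : ∀ p, Irreducible p → p ∣ g₂ → p ∣ q := by
    intro p hp hpg
    by_contra hpq
    obtain ⟨⟨O, hO⟩, hOall⟩ := hL k l x hcoord p hp
    obtain ⟨hO1, hO2, hO3⟩ := hOall O hO
    have hpr : Prime p := hp.prime
    have hfO : f ∉ O := by
      intro hfO
      obtain ⟨k₁, k₂, hk₂, hk⟩ := (hO.2 f).1 hfO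
      have h1 : cm l x (g₁ * k₂) = cm l x (k₁ * g₂) := by
        rw [map_mul, map_mul, ← hfg, ← hk]
        ring
      have h2 := hcoord.1 h1
      have h4 : p ∣ g₁ * k₂ := by
        rw [h2]
        exact hpg.mul_left _
      rcases hpr.dvd_or_dvd h4 with h5 | h5
      · exact hp.not_isUnit (hrel hpg h5)
      · exact hk₂ h5
    apply hfO
    have hq0 : q ≠ 0 := fun h => hpq (by rw [h]; exact dvd_zero _)
    have hinv : (cm l x q)⁻¹ ∈ O := (hO2 q hq0).2 hpq
    have hPa : ∀ c : Fin 3 → k, c ⬝ᵥ P.rep = 0 → ev c / ev a ∈ O := by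
      intro c hc
      obtain ⟨s, t, hst⟩ := hform c hc
      rw [hst, ← hcm]
      exact hO1 _
    apply hf O (Or.inl ⟨a, d, b, p, h3', hO⟩)
    · apply Algebra.adjoin_le
      rintro z ⟨c, hc, rfl⟩
      exact hPa c hc
    · apply Algebra.adjoin_le
      rintro z ⟨c, hc, rfl⟩
      have h1 : ev c / ev a' = (ev c / ev a) * (cm l x q)⁻¹ := by
        rw [hqv]
        field_simp
      change ev c / ev a' ∈ O
      rw [h1]
      exact O.mul_mem (hPa c hc) hinv
  obtain ⟨N, g, hN⟩ := globp_dvd_pow hg₂ hdiv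
  -- `f q^N` is a polynomial
  have hfq : f * cm l x q ^ N = cm l x (g₁ * g) := by
    rw [← map_pow, hN, map_mul, ← mul_assoc, hfg, map_mul]
  obtain ⟨Q, hQ⟩ := globp_exists_ev l x (g₁ * g)
  -- the exceptional curve
  obtain ⟨⟨O, hO⟩, hOall⟩ := hX k P
  obtain ⟨hO1, hO2, hO3, hO4⟩ := hOall O hO
  have hloc := hO4 b a d h3 ha hd
  rw [hxinv] at hloc
  have hcoord' : IsCoord x⁻¹ l := by
    have := (hCo k b a d h3).2
    rwa [hxinv] at this
  have hX0 : Irreducible (X 0 : MvPolynomial (Fin 2) k) := hloc.1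
  obtain ⟨hU1, hU2, hU3⟩ := (hL k x⁻¹ l hcoord' (X 0) hX0).2 O hloc
  have hfO : f ∈ O := by
    apply hf O (Or.inr ⟨P, hP, hO⟩)
    · apply Algebra.adjoin_le
      rintro z ⟨c, hc, rfl⟩
      exact hO2 a c ha0 ha hc
    · apply Algebra.adjoin_le
      rintro z ⟨c, hc, rfl⟩
      exact hO2 a' c ha'0 ha' hc
  have hqO : cm l x q ∈ O := by
    rw [hqv]
    exact hO2 a a' ha0 ha ha'
  have hQO : globp_ev l x Q ∈ O := by
    rw [hQ, ← hfq]
    exact O.mul_mem hfO (O.pow_mem hqO N)
  have hdeg : Q.natDegree = 0 := by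
    by_contra hne
    have hQ0 : Q ≠ 0 := fun h => hne (by rw [h, Polynomial.natDegree_zero])
    have hnd := globp_not_dvd hQ0
    have hrv0 : globp_rv Q ≠ 0 := fun h => hnd (by rw [h]; exact dvd_zero _)
    have h1 : (cm x⁻¹ l (globp_rv Q))⁻¹ ∈ O := (hU2 _ hrv0).2 hnd
    have h2 := globp_cm_rv (l := l) hx0 Q
    have h4 : cm x⁻¹ l (globp_rv Q) ≠ 0 := fun h => hrv0 (hcoord'.1 (by rw [h, map_zero]))
    have h5 : x ^ Q.natDegree = globp_ev l x Q * (cm x⁻¹ l (globp_rv Q))⁻¹ := by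
      rw [← h2, mul_right_comm, mul_inv_cancel₀ h4, one_mul]
    have h6 : x ^ Q.natDegree ∈ O := by
      rw [h5]
      exact O.mul_mem hQO h1
    have hpi : cm x⁻¹ l (X 0 : MvPolynomial (Fin 2) k) = x⁻¹ := by simp [cm]
    rw [hpi] at hU3
    apply hU3.2.1
    rw [inv_inv]
    obtain ⟨m, hm⟩ : ∃ m, Q.natDegree = m + 1 := ⟨Q.natDegree - 1, by omega⟩
    have h7 : x = x ^ Q.natDegree * x⁻¹ ^ m := by
      rw [hm, pow_succ', mul_assoc, ← mul_pow, mul_inv_cancel₀ hx0, one_pow, mul_one]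
    rw [h7]
    exact O.mul_mem h6 (O.pow_mem hU3.1 m)
  -- conclusion
  have hQc : globp_ev l x Q = Polynomial.aeval l (Q.coeff 0) := by
    rw [Polynomial.eq_C_of_natDegree_eq_zero hdeg, globp_ev_C, Polynomial.coeff_C_zero]
  have hlPF : l ∈ PF P := IntermediateField.subset_adjoin k _ ⟨d, a, hd, ha, rfl⟩
  have hqPF : cm l x q ∈ PF P := by
    rw [hqv]
    exact IntermediateField.subset_adjoin k _ ⟨a', a, ha', ha, rfl⟩
  have hfin : f = Polynomial.aeval l (Q.coeff 0) / cm l x q ^ N := by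
    rw [← hQc, hQ, ← hfq, mul_div_cancel_right₀ _ (pow_ne_zero _ hqv0)]
  rw [hfin]
  refine (PF P).div_mem ?_ ((PF P).pow_mem hqPF N)
  have : Polynomial.aeval l (Q.coeff 0) ∈ Algebra.adjoin k {l} := Polynomial.aeval_mem_adjoin_singleton k l
  have hle : Algebra.adjoin k {l} ≤ (PF P).toSubalgebra := Algebra.adjoin_le (by simpa using hlPF)
  exact hle this

end Pool.Agent.Lib.MP_4318ff_ag
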