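import Pool.Agent.Lib.MP_4318ff_ag.Spec.A4
import Pool.Agent.Lib.MP_4318ff_ag.A.RegLin

/-!
# MP_4318ff_ag, `B/LogDiv`: logarithmic vector fields along a pencil
-/

set_option autoImplicit false

namespace Pool.Agent.Lib.MP_4318ff_ag

open scoped LinearAlgebra.Projectivization

section logdiv

variable {k : Type} [Field k]

private theorem logdiv_dep {c c' : Fin 3 → k} (hc' : c' ≠ 0) (h : ¬ LinearIndependent k ![c, c']) :
    ∃ s : k, c = s • c' := by
  rw [LinearIndependent.pair_symm_iff, LinearIndependent.pair_iff' hc'] at h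
  push Not at h
  obtain ⟨s, hs⟩ := h
  exact ⟨s, hs.symm⟩

private theorem logdiv_comb (hE : EvStmt) {P : Pt k} {a c c' : Fin 3 → k} (ha0 : a ≠ 0)
    (ha : a ⬝ᵥ P.rep = 0) (hc : c ⬝ᵥ P.rep = 0) (hc' : c' ⬝ᵥ P.rep = 0)
    (hcc : LinearIndependent k ![c, c']) :
    ∃ x y : k, (1 : F k) = algebraMap k (F k) x * (ev c / ev a) + algebraMap k (F k) y * (ev c' / ev a) := by
  obtain ⟨e1, e2, e3⟩ := hE k
  obtain ⟨x, y, hxy⟩ := reglin_span c c' a P.rep_nonzero hcc hc hc' ha
  have hea : ev a ≠ 0 := fun h => ha0 ((e3 a).1 h)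
  refine ⟨x, y, ?_⟩
  have h1 : ev a = algebraMap k (F k) x * ev c + algebraMap k (F k) y * ev c' := by
    rw [← e2, ← e2, ← e1, ← hxy]
  field_simp
  exact h1

private theorem logdiv_unit (hE : EvStmt) (hU : UnifStmt) {P : Pt k} {a c c' : Fin 3 → k} (ha0 : a ≠ 0)
    (ha : a ⬝ᵥ P.rep = 0) (hc : c ⬝ᵥ P.rep = 0) (hc' : c' ⬝ᵥ P.rep = 0)
    (hcc : LinearIndependent k ![c, c']) {O : Subalgebra k (F k)} {π : F k} (hπ : IsUnif O π)
    (h1 : ev c / ev a ∈ O) (h2 : ev c' / ev a ∈ O) :
    (ev c / ev a)⁻¹ ∈ O ∨ (ev c' / ev a)⁻¹ ∈ O := by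
  obtain ⟨x, y, hxy⟩ := logdiv_comb hE ha0 ha hc hc' hcc
  obtain ⟨-, -, u3, -⟩ := hU k O π hπ
  by_contra hcon
  push Not at hcon
  have f1 := u3 _ h1 hcon.1
  have f2 := u3 _ h2 hcon.2
  have hπ0 : π ≠ 0 := by
    rintro rfl
    exact hπ.2.1 (by rw [inv_zero]; exact O.zero_mem)
  apply hπ.2.1
  have h3 : π⁻¹ = algebraMap k (F k) x * (ev c / ev a / π) + algebraMap k (F k) y * (ev c' / ev a / π) := by
    have h4 : π⁻¹ = 1 * π⁻¹ := (one_mul _).symm
    rw [h4, hxy]
    ring
  rw [h3]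
  exact O.add_mem (O.mul_mem (O.algebraMap_mem x) f1) (O.mul_mem (O.algebraMap_mem y) f2)

private theorem logdiv_quot (δ : Derivation k (F k) (F k)) {x y : F k} (hy : y ≠ 0) :
    δ (x / y) = (y * δ x - x * δ y) / y ^ 2 := by
  have h1 : δ (x / y * y) = x / y * δ y + y * δ (x / y) := by
    rw [Derivation.leibniz]
    simp only [smul_eq_mul]
  rw [div_mul_cancel₀ _ hy] at h1
  field_simp
  field_simp at h1
  linear_combination -h1

private theorem logdiv_log (δ : Derivation k (F k) (F k)) {x y : F k} (hx : x ≠ 0) (hy : y ≠ 0) :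
    δ (x / y) / (x / y) = δ x / x - δ y / y := by
  rw [logdiv_quot δ hy]
  field_simp

end logdiv

open Classical in
theorem tLogDiv : EvStmt → UnifStmt → LogDivStmt := by
  intro hE hU k _ r C P a a' O π δ hP hli ha ha' hπ hPR
  obtain ⟨e1, e2, e3⟩ := hE k
  have ha0 : a ≠ 0 := by
    have := hli.ne_zero 0
    simpa using this
  have hea : ev a ≠ 0 := fun h => ha0 ((e3 a).1 h)
  have hin : ∀ c : Fin 3 → k, c ⬝ᵥ P.rep = 0 → ev c / ev a ∈ O := fun c hc =>
    hPR (Algebra.subset_adjoin ⟨c, hc, rfl⟩)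
  -- the value of `δ` on the forms through `P`
  have hval : ∀ c : Fin 3 → k, c ⬝ᵥ P.rep = 0 → ∃ t : k,
      δ (ev c / ev a) = algebraMap k (F k) t * δ (ev a' / ev a) ∧
      (LinearIndependent k ![c, a] → t ≠ 0) := by
    intro c hc
    obtain ⟨s, t, hst⟩ := reglin_span a a' c P.rep_nonzero hli ha ha' hc
    refine ⟨t, ?_, ?_⟩
    · have h1 : ev c / ev a = algebraMap k (F k) s + algebraMap k (F k) t * (ev a' / ev a) := by
        rw [hst, e1, e2, e2]
        field_simp
      rw [h1, map_add, Derivation.map_algebraMap, zero_add, Derivation.leibniz,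
        Derivation.map_algebraMap]
      simp only [smul_eq_mul]
      ring
    · rintro hca rfl
      rw [LinearIndependent.pair_iff] at hca
      have h2 := hca 1 (-s) (by rw [hst]; module)
      exact one_ne_zero h2.1
  have hell : ∀ i, ev (C.ℓ i) ≠ 0 := by
    intro i h
    have h1 := (e3 _).1 h
    -- a line is not zero
    have h2 : ∃ j : Fin r, j ≠ i := by
      have h3 : 3 ≤ (C.through P).ncard := hP
      by_contra hcon
      push Not at hcon
      have h4 : C.through P ⊆ {i} := fun j _ => hcon j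
      have h5 := Set.ncard_le_ncard h4
      rw [Set.ncard_singleton] at h5
      omega
    obtain ⟨j, hj⟩ := h2
    have h3 := (C.indep i j hj.symm).ne_zero 0
    simp only [Matrix.cons_val_zero] at h3
    exact h3 h1
  have hl0 : ∀ i, ev (C.ℓ i) / ev a ≠ 0 := fun i => div_ne_zero (hell i) hea
  set J := Finset.univ.filter (fun i => i ∈ C.through P ∧ LinearIndependent k ![C.ℓ i, a]) with hJ
  have hJ1 : ∀ i ∈ J, C.ℓ i ⬝ᵥ P.rep = 0 ∧ LinearIndependent k ![C.ℓ i, a] := by
    intro i hi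
    rw [hJ, Finset.mem_filter] at hi
    exact hi.2
  have hg0 : ∏ i ∈ J, ev (C.ℓ i) / ev a ≠ 0 := Finset.prod_ne_zero_iff.2 fun i _ => hl0 i
  constructor
  · rintro ⟨r1, r2⟩
    have hd : δ (ev a' / ev a) ∈ O := r1 a' a ha' ha (hin a' ha')
    refine ⟨δ (ev a' / ev a) / ∏ i ∈ J, ev (C.ℓ i) / ev a, ?_, ?_⟩
    swap
    · rw [mul_div_cancel₀ _ hg0]
    by_cases hall : ∀ i ∈ J, (ev (C.ℓ i) / ev a)⁻¹ ∈ O
    · rw [div_eq_mul_inv, ← Finset.prod_inv_distrib]
      exact O.mul_mem hd (O.prod_mem hall)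
    · push Not at hall
      obtain ⟨i, hi, hni⟩ := hall
      obtain ⟨hi1, hi2⟩ := hJ1 i hi
      have hu : ∀ j, j ≠ i → C.ℓ j ⬝ᵥ P.rep = 0 → (ev (C.ℓ j) / ev a)⁻¹ ∈ O := by
        intro j hj hjP
        rcases logdiv_unit hE hU ha0 ha hi1 hjP (C.indep i j hj.symm) hπ (hin _ hi1) (hin _ hjP) with h | h
        · exact absurd h hni
        · exact h
      -- another line through `P`
      have h3 : ∃ j ∈ C.through P, j ≠ i := by
        have h3 : 3 ≤ (C.through P).ncard := hP
        by_contra hcon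
        push Not at hcon
        have h4 : C.through P ⊆ {i} := fun j hj => hcon j hj
        have h5 := Set.ncard_le_ncard h4
        rw [Set.ncard_singleton] at h5
        omega
      obtain ⟨j, hjP, hji⟩ := h3
      have hju := hu j hji hjP
      have hq : ev (C.ℓ i) / ev (C.ℓ j) = (ev (C.ℓ i) / ev a) / (ev (C.ℓ j) / ev a) := by
        field_simp
      have hqO : ev (C.ℓ i) / ev (C.ℓ j) ∈ O := by
        rw [hq, div_eq_mul_inv]
        exact O.mul_mem (hin _ hi1) hju
      have h4 := r2 i hi1 j hjP hqO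
      rw [hq, logdiv_log δ (hl0 i) (hl0 j)] at h4
      have hdj : δ (ev (C.ℓ j) / ev a) ∈ O := r1 _ a hjP ha (hin _ hjP)
      have h5 : δ (ev (C.ℓ i) / ev a) / (ev (C.ℓ i) / ev a) ∈ O := by
        have h6 := O.add_mem h4 (O.mul_mem hdj hju)
        rw [← div_eq_mul_inv, sub_add_cancel] at h6
        exact h6
      obtain ⟨t, ht, ht0⟩ := hval _ hi1
      have ht' : algebraMap k (F k) t ≠ 0 := by
        rw [Ne, map_eq_zero]
        exact ht0 hi2
      have h6 : δ (ev a' / ev a) / (ev (C.ℓ i) / ev a) ∈ O := by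
        have h7 := O.mul_mem (O.algebraMap_mem t⁻¹) h5
        rw [ht] at h7
        have h8 : algebraMap k (F k) t⁻¹ * (algebraMap k (F k) t * δ (ev a' / ev a) / (ev (C.ℓ i) / ev a)) =
            δ (ev a' / ev a) / (ev (C.ℓ i) / ev a) := by
          rw [map_inv₀, mul_div_assoc, ← mul_assoc, inv_mul_cancel₀ ht', one_mul]
        rw [h8] at h7
        exact h7
      rw [← Finset.mul_prod_erase J _ hi, ← div_div, div_eq_mul_inv _ (∏ i ∈ J.erase i, _),
        ← Finset.prod_inv_distrib]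
      refine O.mul_mem h6 (O.prod_mem fun j hj => ?_)
      rw [Finset.mem_erase] at hj
      exact hu j hj.1 (hJ1 j hj.2).1
  · rintro ⟨o, ho, hδ⟩
    have hgO : ∏ i ∈ J, ev (C.ℓ i) / ev a ∈ O := O.prod_mem fun i hi => hin _ (hJ1 i hi).1
    have hd : δ (ev a' / ev a) ∈ O := by
      rw [hδ]
      exact O.mul_mem hgO ho
    have hdc : ∀ c : Fin 3 → k, c ⬝ᵥ P.rep = 0 → δ (ev c / ev a) ∈ O := by
      intro c hc
      obtain ⟨t, ht, -⟩ := hval c hc
      rw [ht]
      exact O.mul_mem (O.algebraMap_mem t) hd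
    constructor
    · intro c c' hc hc' hO
      by_cases hc0 : c' = 0
      · have h1 : ev c' = 0 := (e3 c').2 hc0
        rw [h1, div_zero, map_zero]
        exact O.zero_mem
      by_cases hcc : LinearIndependent k ![c, c']
      · obtain ⟨x, y, hxy⟩ := logdiv_comb hE ha0 ha hc hc' hcc
        have hec' : ev c' ≠ 0 := fun h => hc0 ((e3 c').1 h)
        have hne : ev c' / ev a ≠ 0 := div_ne_zero hec' hea
        have hu : (ev c' / ev a)⁻¹ ∈ O := by
          have h2 : (ev c' / ev a)⁻¹ = algebraMap k (F k) x * (ev c / ev c') + algebraMap k (F k) y := by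
            have h3 : (ev c' / ev a)⁻¹ = 1 * (ev c' / ev a)⁻¹ := (one_mul _).symm
            rw [h3, hxy]
            field_simp
          rw [h2]
          exact O.add_mem (O.mul_mem (O.algebraMap_mem x) hO) (O.algebraMap_mem y)
        have hq : ev c / ev c' = (ev c / ev a) / (ev c' / ev a) := by
          field_simp
        rw [hq, logdiv_quot δ hne, div_eq_mul_inv, ← inv_pow]
        exact O.mul_mem (O.sub_mem (O.mul_mem (hin _ hc') (hdc _ hc)) (O.mul_mem (hin _ hc) (hdc _ hc')))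
          (O.pow_mem hu 2)
      · obtain ⟨s, hs⟩ := logdiv_dep hc0 hcc
        have hec' : ev c' ≠ 0 := fun h => hc0 ((e3 c').1 h)
        have h1 : ev c / ev c' = algebraMap k (F k) s := by
          rw [hs, e2]
          field_simp
        rw [h1, Derivation.map_algebraMap]
        exact O.zero_mem
    · -- logarithmic derivatives
      have hlog : ∀ i ∈ C.through P, δ (ev (C.ℓ i) / ev a) / (ev (C.ℓ i) / ev a) ∈ O := by
        intro i hi
        by_cases hia : LinearIndependent k ![C.ℓ i, a]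
        · have hiJ : i ∈ J := by
            rw [hJ, Finset.mem_filter]
            exact ⟨Finset.mem_univ i, hi, hia⟩
          obtain ⟨t, ht, -⟩ := hval _ hi
          have h1 : δ (ev (C.ℓ i) / ev a) / (ev (C.ℓ i) / ev a) =
              algebraMap k (F k) t * ((∏ j ∈ J.erase i, ev (C.ℓ j) / ev a) * o) := by
            rw [ht, hδ, ← Finset.mul_prod_erase J _ hiJ, div_eq_iff (hl0 i)]
            ring
          rw [h1]
          refine O.mul_mem (O.algebraMap_mem t) (O.mul_mem (O.prod_mem fun j hj => ?_) ho)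
          exact hin _ (hJ1 j (Finset.mem_of_mem_erase hj)).1
        · obtain ⟨s, hs⟩ := logdiv_dep ha0 hia
          have h1 : ev (C.ℓ i) / ev a = algebraMap k (F k) s := by
            rw [hs, e2]
            field_simp
          rw [h1, Derivation.map_algebraMap, zero_div]
          exact O.zero_mem
      intro i hi j hj _
      have hq : ev (C.ℓ i) / ev (C.ℓ j) = (ev (C.ℓ i) / ev a) / (ev (C.ℓ j) / ev a) := by
        field_simp
      rw [hq, logdiv_log δ (hl0 i) (hl0 j)]
      exact O.sub_mem (hlog i hi) (hlog j hj)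

end Pool.Agent.Lib.MP_4318ff_ag
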