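import Pool.Agent.Lib.MP_4318ff_ag.Spec.A4

set_option autoImplicit false

namespace Pool.Agent.Lib.MP_4318ff_ag

open scoped LinearAlgebra.Projectivization

section mt2

variable {k : Type} [Field k] {r : ℕ} {C : Config k r} {K : Type} [Field K] [Algebra (F k) K]
  [Algebra k K]

private theorem mt2_bdry_add {n : ℕ} {D D' : Chart C → Chart C → Derivation k K K} (h : IsBdry n D)
    (h' : IsBdry n D') : IsBdry n (fun u v => D u v + D' u v) := by
  obtain ⟨E, hE, hD⟩ := h
  obtain ⟨E', hE', hD'⟩ := h'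
  refine ⟨fun u => E u + E' u, fun u x hx hk => ?_, fun u v => ?_⟩
  · rw [Derivation.add_apply]
    exact add_mem (hE u x hx hk) (hE' u x hx hk)
  · show D u v + D' u v = (E v + E' v) - (E u + E' u)
    rw [hD u v, hD' u v]
    abel

private theorem mt2_bdry_sum {n : ℕ} {ι : Type} (s : Finset ι)
    (f : ι → Chart C → Chart C → Derivation k K K) (h : ∀ i ∈ s, IsBdry n (f i)) :
    IsBdry n (fun u v => ∑ i ∈ s, f i u v) := by
  classical
  induction s using Finset.induction_on with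
  | empty =>
    refine ⟨fun _ => 0, fun u x _ _ => ?_, fun u v => ?_⟩
    · rw [Derivation.zero_apply]
      exact zero_mem _
    · show ∑ i ∈ (∅ : Finset ι), f i u v = (0 : Derivation k K K) - 0
      rw [Finset.sum_empty, sub_zero]
  | insert a s ha ih =>
    have h1 := mt2_bdry_add (h a (Finset.mem_insert_self a s))
      (ih fun i hi => h i (Finset.mem_insert_of_mem hi))
    have h2 : (fun u v => ∑ i ∈ insert a s, f i u v) = fun u v => f a u v + ∑ i ∈ s, f i u v := by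
      funext u v
      rw [Finset.sum_insert ha]
    rw [h2]
    exact h1

end mt2

theorem tMT2 : MFinStmt → AvgStmt → NPnormalStmt → DisjStmt → PresRegStmt → CoreStmt → CaseC2Stmt →
    RegModStmt → TwoStmt → MT2Stmt := by
  intro h1 h2 h3 h4 h5 h7 h8 h9 h10 k _ _ _ hS1 r n C K _ _ _ _ _ _ hrig hr6 hrn hroots D hcoc hPres
  classical
  obtain ⟨a1, a2, a3, a4, a5, a6, a7, a8, a9, a10⟩ := h2 k K
  have hfin := h1 k r C
  have hn2 : 2 ≤ n := by omega
  have hn0 : 0 < n := by omega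
  have hn4 : 4 ≤ n := by omega
  -- the averages as additive maps
  set e : Subgroup (K ≃ₐ[F k] K) → Derivation k K K →+ Derivation k K K := fun N =>
    AddMonoidHom.mk' (fun D => avgD N D) (a4 N) with he
  have he' : ∀ N D, avgD N D = e N D := fun N D => rfl
  set cj : (K ≃ₐ[F k] K) → Derivation k K K →+ Derivation k K K := fun g =>
    AddMonoidHom.mk' (fun D => conjD g D) (a1 g) with hcj
  have hcj' : ∀ g D, conjD g D = cj g D := fun g D => rfl
  have hnP : ∀ P : Pt k, (NP K P).Normal := fun P => h3 k K P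
  have hnT : (⊤ : Subgroup (K ≃ₐ[F k] K)).Normal := inferInstance
  have c1 : ∀ (P Q : Pt k) (X : Derivation k K K), P ≠ Q → e (NP K Q) (e (NP K P) X) = e ⊤ X := by
    intro P Q X hPQ
    rw [← he', ← he', ← he', a9 _ _ (hnP Q) (hnP P), h4 k K Q P hPQ.symm]
  have c2 : ∀ (P : Pt k) (X : Derivation k K K), e (NP K P) (e (NP K P) X) = e (NP K P) X := by
    intro P X
    rw [← he', ← he', a9 _ _ (hnP P) (hnP P), sup_idem]
  have c3 : ∀ (P : Pt k) (X : Derivation k K K), e (NP K P) (e ⊤ X) = e ⊤ X := by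
    intro P X
    rw [← he', ← he', a9 _ _ (hnP P) hnT, sup_top_eq]
  -- a point of C.M
  obtain ⟨P₀, hP₀, -⟩ := h10 k r C hrig hr6 ⟨0, by omega⟩
  -- the subspaces of derivations with values in the tangent sheaf
  obtain ⟨-, -, hW⟩ := h9 k r n C K
  choose W hW1 hW2 using hW
  have hDW : ∀ u v, D u v ∈ W (u.R ⊔ v.R) := fun u v => (hW1 _ _).2 (hPres u v)
  have hpr : ∀ X : Chart C → Chart C → Derivation k K K, (∀ u v, X u v ∈ W (u.R ⊔ v.R)) → Pres n X :=
    fun X hX u v => (hW1 _ _).1 (hX u v)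
  have heW : ∀ (N : Subgroup (K ≃ₐ[F k] K)) u v, e N (D u v) ∈ W (u.R ⊔ v.R) := by
    intro N u v
    exact a8 N _ (fun g _ X hX => hW2 _ g X hX) _ (hDW u v)
  have x2 : ∀ P u v, e (NP K P) (D u v) - e ⊤ (D u v) ∈ W (u.R ⊔ v.R) := fun P u v =>
    Submodule.sub_mem _ (heW _ u v) (heW _ u v)
  have x3 : ∀ u v, ∑ P ∈ hfin.toFinset, (e (NP K P) (D u v) - e ⊤ (D u v)) ∈ W (u.R ⊔ v.R) :=
    fun u v => Submodule.sum_mem _ fun P _ => x2 P u v
  -- cocycles
  have y1 : ∀ (N : Subgroup (K ≃ₐ[F k] K)) u v w, e N (D u v) + e N (D v w) = e N (D u w) := by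
    intro N u v w
    rw [← map_add, hcoc u v w]
  have y2 : ∀ P u v w, (e (NP K P) (D u v) - e ⊤ (D u v)) + (e (NP K P) (D v w) - e ⊤ (D v w)) =
      e (NP K P) (D u w) - e ⊤ (D u w) := by
    intro P u v w
    rw [← y1 _ u v w, ← y1 _ u v w]
    abel
  have y3 : ∀ u v w, ∑ P ∈ hfin.toFinset, (e (NP K P) (D u v) - e ⊤ (D u v)) +
      ∑ P ∈ hfin.toFinset, (e (NP K P) (D v w) - e ⊤ (D v w)) =
      ∑ P ∈ hfin.toFinset, (e (NP K P) (D u w) - e ⊤ (D u w)) := by
    intro u v w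
    rw [← Finset.sum_add_distrib]
    exact Finset.sum_congr rfl fun P _ => y2 P u v w
  -- part A
  have bA : IsBdry n (fun u v => D u v - ∑ P ∈ hfin.toFinset, (e (NP K P) (D u v) - e ⊤ (D u v)) -
      e ⊤ (D u v)) := by
    have hone : ∀ Q ∈ C.M, ExtOne n Q (fun u v => D u v -
        ∑ P ∈ hfin.toFinset, (e (NP K P) (D u v) - e ⊤ (D u v)) - e ⊤ (D u v)) := by
      intro Q hQ
      refine hS1 r n C K hn4 hroots Q hQ _ ?_ ?_ ?_
      · intro u v w
        show (D u v - ∑ P ∈ hfin.toFinset, (e (NP K P) (D u v) - e ⊤ (D u v)) - e ⊤ (D u v)) +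
          (D v w - ∑ P ∈ hfin.toFinset, (e (NP K P) (D v w) - e ⊤ (D v w)) - e ⊤ (D v w)) =
          D u w - ∑ P ∈ hfin.toFinset, (e (NP K P) (D u w) - e ⊤ (D u w)) - e ⊤ (D u w)
        rw [← y3 u v w, ← y1 ⊤ u v w, ← hcoc u v w]
        abel
      · exact hpr _ fun u v => Submodule.sub_mem _ (Submodule.sub_mem _ (hDW u v) (x3 u v)) (heW _ u v)
      · intro u v
        rw [he', map_sub, map_sub, map_sum, c3, Finset.sum_eq_single Q]
        · rw [map_sub, c2, c3]
          abel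
        · intro P _ hPQ
          rw [map_sub, c1 P Q _ hPQ, c3, sub_self]
        · intro h
          exact absurd (hfin.mem_toFinset.2 hQ) h
    exact h7 k r n C K hrig hr6 hrn hroots _ P₀ (fun P hP _ => hone P hP) (Or.inl (hone P₀ hP₀))
  -- part B
  have bB : ∀ P ∈ hfin.toFinset, IsBdry n (fun u v => e (NP K P) (D u v) - e ⊤ (D u v)) := by
    intro P _
    refine h7 k r n C K hrig hr6 hrn hroots _ P ?_ (Or.inr ?_)
    · intro Q hQ hQP
      refine hS1 r n C K hn4 hroots Q hQ _ (fun u v w => y2 P u v w) (hpr _ fun u v => x2 P u v)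
        fun u v => ?_
      rw [he', map_sub, c1 P Q _ hQP.symm, c3, sub_self]
    · intro g hg u v
      rw [hcj', map_sub, ← hcj', ← hcj']
      rw [show conjD g (e (NP K P) (D u v)) = e (NP K P) (D u v) from a6 _ _ g hg,
        show conjD g (e ⊤ (D u v)) = e ⊤ (D u v) from a6 _ _ g (Subgroup.mem_top g)]
  -- part C
  have bC : IsBdry n (fun u v => e ⊤ (D u v)) := by
    have hone := h8 k r n C K hrig hr6 hn2 hroots (fun u v => e ⊤ (D u v))
      (fun u v w => y1 ⊤ u v w)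
      (fun g u v => a6 _ _ g (Subgroup.mem_top g))
      (h5 k r n C K hn0 _ (hpr _ fun u v => heW ⊤ u v))
    exact h7 k r n C K hrig hr6 hrn hroots _ P₀ (fun P hP _ => hone P hP) (Or.inl (hone P₀ hP₀))
  have hfinal := mt2_bdry_add (mt2_bdry_add bA (mt2_bdry_sum _ _ bB)) bC
  have hD : D = fun u v => (D u v - ∑ P ∈ hfin.toFinset, (e (NP K P) (D u v) - e ⊤ (D u v)) -
      e ⊤ (D u v)) + (∑ P ∈ hfin.toFinset, (e (NP K P) (D u v) - e ⊤ (D u v))) + e ⊤ (D u v) := by
    funext u v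
    abel
  rw [hD]
  exact hfinal

end Pool.Agent.Lib.MP_4318ff_ag
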