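import Pool.Agent.Lib.MP_4318ff_ag.Spec.A4
import Pool.Agent.Lib.MP_4318ff_ag.A.RegLin

/-!
# Derivations which preserve the Kummer ring are regular along the pencils
-/

set_option autoImplicit false

namespace Pool.Agent.Lib.MP_4318ff_ag

open scoped LinearAlgebra.Projectivization

section

variable {k : Type} [Field k] {K : Type} [Field K] [Algebra (F k) K]

theorem presreg_ic_iff {S : Subalgebra k (F k)} {x : K} :
    x ∈ ic K S ↔ ∃ p : Polynomial (F k), p.Monic ∧ (∀ i, p.coeff i ∈ S) ∧ Polynomial.aeval x p = 0 := by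
  constructor
  · rintro ⟨p, hp, h⟩
    refine ⟨p.map (algebraMap S (F k)), hp.map _, fun i => ?_, ?_⟩
    · rw [Polynomial.coeff_map]
      exact (p.coeff i).2
    · rw [Polynomial.aeval_map_algebraMap]
      exact h
  · rintro ⟨p, hp, hc, h⟩
    have hsub : (↑p.coeffs : Set (F k)) ⊆ S.toSubring := by
      intro a ha
      obtain ⟨i, _, rfl⟩ := Polynomial.mem_coeffs_iff.1 (Finset.mem_coe.1 ha)
      exact hc i
    refine ⟨p.toSubring S.toSubring hsub, (Polynomial.monic_toSubring p S.toSubring hsub).2 hp, ?_⟩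
    have h1 : (p.toSubring S.toSubring hsub).map (Subring.subtype S.toSubring) = p :=
      Polynomial.map_toSubring p S.toSubring hsub
    have h2 : algebraMap S K = (algebraMap (F k) K).comp (Subring.subtype S.toSubring) := rfl
    rw [h2, ← Polynomial.eval₂_map, h1]
    exact h

theorem presreg_ic_mono {S T : Subalgebra k (F k)} (h : S ≤ T) {x : K} (hx : x ∈ ic K S) : x ∈ ic K T := by
  obtain ⟨p, hp, hc, h0⟩ := presreg_ic_iff.1 hx
  exact presreg_ic_iff.2 ⟨p, hp, fun i => h (hc i), h0⟩

/-- `a / c'` is regular if `c / c'` is regular and `c, c'` are independent. -/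
theorem presreg_inv (hE : EvStmt) {O : Subalgebra k (F k)} {P : Pt k} {a c c' : Fin 3 → k}
    (ha : a ⬝ᵥ P.rep = 0) (hc : c ⬝ᵥ P.rep = 0) (hc' : c' ⬝ᵥ P.rep = 0) (hind : LinearIndependent k ![c, c'])
    (hO : ev c / ev c' ∈ O) : ev a / ev c' ∈ O := by
  obtain ⟨s, t, rfl⟩ := reglin_span c c' a P.rep_nonzero hind hc hc' ha
  have hc'0 : c' ≠ 0 := hind.ne_zero 1
  have hev : ev c' ≠ 0 := fun h => hc'0 (((hE k).2.2 c').1 h)
  have h1 : ev (s • c + t • c') / ev c' = algebraMap k (F k) s * (ev c / ev c') + algebraMap k (F k) t := by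
    rw [(hE k).1, (hE k).2.1, (hE k).2.1]
    field_simp
  rw [h1]
  exact O.add_mem (O.mul_mem (O.algebraMap_mem _) hO) (O.algebraMap_mem _)

theorem presreg_kummer {r n : ℕ} {C : Config k r} (f : F k) : algebraMap (F k) K f ∈ Kummer K C n :=
  Subfield.subset_closure (Or.inl ⟨f, rfl⟩)

end

theorem tPresReg : EvStmt → UnifStmt → CurveStmt → ExcStmt → PresRegStmt := by
  intro hE _ _ _ k _ _ r n C K _ _ _ _ hn D hD P hP u v O _ hu hv
  have hsup : u.R ⊔ v.R ≤ O := sup_le hu hv
  have hm : ∀ x : K, x ∈ ic K (u.R ⊔ v.R) → x ∈ Kummer K C n → D u v x ∈ ic K O := fun x h1 h2 =>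
    presreg_ic_mono hsup (hD u v x h1 h2)
  have hmF : ∀ f ∈ u.R, D u v (algebraMap (F k) K f) ∈ ic K O := by
    intro f hf
    have hf' : f ∈ u.R ⊔ v.R := (le_sup_left : u.R ≤ u.R ⊔ v.R) hf
    exact hm _ (reglin_ic _ f hf') (presreg_kummer f)
  have ha0 : ev (u.a P) ≠ 0 := fun h => u.a_ne P hP (((hE k).2.2 _).1 h)
  have haP := u.a_through P hP
  have hgen : ∀ c : Fin 3 → k, c ⬝ᵥ P.rep = 0 → ev c / ev (u.a P) ∈ u.R := fun c hc =>
    Algebra.subset_adjoin (Or.inr ⟨P, hP, c, hc, rfl⟩)
  set φ := algebraMap (F k) K with hφ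
  have hφne : ∀ f : F k, f ≠ 0 → φ f ≠ 0 := fun f hf => (map_ne_zero φ).2 hf
  refine ⟨?_, ?_⟩
  · intro c c' hc hc' hO
    by_cases hind : LinearIndependent k ![c, c']
    · have hc'0 : c' ≠ 0 := hind.ne_zero 1
      have hev' : ev c' ≠ 0 := fun h => hc'0 (((hE k).2.2 c').1 h)
      have hinv := presreg_inv hE haP hc hc' hind hO
      have h1 : φ (ev c / ev c') * φ (ev c' / ev (u.a P)) = φ (ev c / ev (u.a P)) := by
        rw [← map_mul]
        congr 1
        field_simp
      have h2 := congrArg (D u v) h1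
      rw [Derivation.leibniz, smul_eq_mul, smul_eq_mul] at h2
      have h3 : φ (ev c' / ev (u.a P)) * φ (ev (u.a P) / ev c') = 1 := by
        rw [← map_mul, ← map_one φ]
        congr 1
        field_simp
      have h4 : D u v (φ (ev c / ev c')) =
          (D u v (φ (ev c / ev (u.a P))) - φ (ev c / ev c') * D u v (φ (ev c' / ev (u.a P)))) *
            φ (ev (u.a P) / ev c') := by
        rw [← h2]
        linear_combination (-(D u v (φ (ev c / ev c')))) * h3
      rw [h4]
      exact (ic K O).mul_mem ((ic K O).sub_mem (hmF _ (hgen c hc))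
        ((ic K O).mul_mem (reglin_ic O _ hO) (hmF _ (hgen c' hc')))) (reglin_ic O _ hinv)
    · -- dependent forms: the quotient is constant
      have hconst : ∃ γ : k, ev c / ev c' = algebraMap k (F k) γ := by
        rw [LinearIndependent.pair_iff] at hind
        push Not at hind
        obtain ⟨s, t, hst, hne⟩ := hind
        by_cases hs : s = 0
        · have ht : t ≠ 0 := hne hs
          rw [hs, zero_smul, zero_add] at hst
          have hc'0 : c' = 0 := (smul_eq_zero.1 hst).resolve_left ht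
          refine ⟨0, ?_⟩
          rw [hc'0, ((hE k).2.2 0).2 rfl, div_zero, map_zero]
        · by_cases hc'0 : c' = 0
          · refine ⟨0, ?_⟩
            rw [hc'0, ((hE k).2.2 0).2 rfl, div_zero, map_zero]
          · have hev' : ev c' ≠ 0 := fun h => hc'0 (((hE k).2.2 c').1 h)
            refine ⟨-(t / s), ?_⟩
            have h5 : c = (-(t / s)) • c' := by
              have h6 : s • c = -(t • c') := eq_neg_of_add_eq_zero_left hst
              have h7 : c = s⁻¹ • (s • c) := by rw [smul_smul, inv_mul_cancel₀ hs, one_smul]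
              rw [h7, h6, smul_neg, smul_smul, neg_smul]
              congr 2
              field_simp
            nth_rewrite 1 [h5]
            rw [(hE k).2.1, mul_div_assoc, div_self hev', mul_one]
      obtain ⟨γ, hγ⟩ := hconst
      rw [hγ, ← IsScalarTower.algebraMap_apply k (F k) K, Derivation.map_algebraMap]
      exact (ic K O).zero_mem
  · intro i hi j hj hO z hz
    by_cases hij : i = j
    · subst hij
      have hne : C.ℓ i ≠ 0 := by
        obtain ⟨j, hj, hji⟩ := reglin_other C P hP i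
        exact reglin_ne C i j (Ne.symm hji)
      have hev : ev (C.ℓ i) ≠ 0 := fun h => hne (((hE k).2.2 _).1 h)
      rw [div_self hev, map_one] at hz
      have hz0 : z ≠ 0 := by
        rintro rfl
        rw [zero_pow hn.ne'] at hz
        exact zero_ne_one hz
      have h1 := congrArg (D u v) hz
      rw [Derivation.leibniz_pow, Derivation.map_one_eq_zero] at h1
      have hcz : CharZero K := charZero_of_injective_algebraMap (algebraMap k K).injective
      have h2 : D u v z = 0 := by
        rw [smul_eq_mul, nsmul_eq_mul] at h1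
        rcases mul_eq_zero.1 h1 with h3 | h3
        · exact absurd (Nat.cast_eq_zero.1 h3) hn.ne'
        · exact (mul_eq_zero.1 h3).resolve_left (pow_ne_zero _ hz0)
      rw [h2]
      exact (ic K O).zero_mem
    · have hi' : C.ℓ i ⬝ᵥ P.rep = 0 := hi
      have hj' : C.ℓ j ⬝ᵥ P.rep = 0 := hj
      have hnej : C.ℓ j ≠ 0 := reglin_ne C j i (Ne.symm hij)
      have hevj : ev (C.ℓ j) ≠ 0 := fun h => hnej (((hE k).2.2 _).1 h)
      have hinv := presreg_inv hE haP hi' hj' (C.indep i j hij) hO
      set y := z * φ (ev (C.ℓ j) / ev (u.a P)) with hy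
      have hyn : y ^ n = φ ((ev (C.ℓ i) / ev (u.a P)) * (ev (C.ℓ j) / ev (u.a P)) ^ (n - 1)) := by
        obtain ⟨m, rfl⟩ : ∃ m, n = m + 1 := ⟨n - 1, by omega⟩
        rw [hy, mul_pow, hz, ← map_pow, ← map_mul, Nat.add_sub_cancel]
        congr 1
        rw [pow_succ]
        field_simp
      have hyR : y ∈ ic K (u.R ⊔ v.R) := by
        have hle : u.R ≤ u.R ⊔ v.R := le_sup_left
        exact reglin_root _ _ (hle (u.R.mul_mem (hgen _ hi') (u.R.pow_mem (hgen _ hj') _))) n hn y hyn
      have hyK : y ∈ Kummer K C n :=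
        (Kummer K C n).mul_mem (Subfield.subset_closure (Or.inr ⟨i, j, hz⟩)) (presreg_kummer _)
      have h1 := hm y hyR hyK
      have h2 := hmF _ (hgen _ hj')
      have hzO : z ∈ ic K O := reglin_root O _ hO n hn z hz
      have h3 : φ (ev (C.ℓ j) / ev (u.a P)) * φ (ev (u.a P) / ev (C.ℓ j)) = 1 := by
        rw [← map_mul, ← map_one φ]
        congr 1
        field_simp
      have h4 : D u v z = (D u v y - z * D u v (φ (ev (C.ℓ j) / ev (u.a P)))) * φ (ev (u.a P) / ev (C.ℓ j)) := by
        rw [hy, Derivation.leibniz, smul_eq_mul, smul_eq_mul]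
        linear_combination (-(D u v z)) * h3
      rw [h4]
      exact (ic K O).mul_mem ((ic K O).sub_mem h1 ((ic K O).mul_mem hzO h2)) (reglin_ic O _ hinv)

end Pool.Agent.Lib.MP_4318ff_ag
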