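import Pool.Agent.Lib.MP_4318ff_ag.B.S2F1

/-!
# MP_4318ff_ag, B/S2F: invariant cocycles extend every pencil

Hypotheses used: `EvStmt`, `CurveStmt`, `ExcStmt`, `DerVStmt`, `ChartExAStmt`, `SideStmt`, `GlobPStmt`, `LogDivStmt`.
-/

set_option autoImplicit false

namespace Pool.Agent.Lib.MP_4318ff_ag

open scoped LinearAlgebra.Projectivization

theorem tS2F (hE : EvStmt) (hK : CurveStmt) (hX : ExcStmt) (hV : DerVStmt) (hA : ChartExAStmt)
    (hS : SideStmt) (hG : GlobPStmt) (hLD : LogDivStmt) : S2FStmt := by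
  intro k _ _ _ r C P hP D hcoc hreg
  -- uniformisers
  have hunif : ∀ O : Subalgebra k (F k), IsDiv C O → ∃ π, IsUnif O π := by
    rintro O (hO | ⟨T, hT, hO⟩)
    · exact (hK k O hO).1
    · obtain ⟨b, c, d, hli, hb, hc, -⟩ := exc_perp T.rep T.rep_nonzero
      exact ⟨_, ((hX k T).2 O hO).2.2.1 b c hb (hli.ne_zero 1) hc⟩
  -- the partner
  have hpart : ∀ a : Fin 3 → k, ∃ a' : Fin 3 → k, a ≠ 0 → a ⬝ᵥ P.rep = 0 →
      LinearIndependent k ![a, a'] ∧ a' ⬝ᵥ P.rep = 0 := by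
    intro a
    by_cases h : a ≠ 0 ∧ a ⬝ᵥ P.rep = 0
    · obtain ⟨b, hb⟩ := exc_ne P.rep P.rep_nonzero
      obtain ⟨a', h1, h2⟩ := hart_ext P.rep_nonzero h.1 h.2 hb
      exact ⟨a', fun _ _ => ⟨(linearIndependent_finCons.mp h1).1, h2⟩⟩
    · exact ⟨0, fun h1 h2 => absurd ⟨h1, h2⟩ h⟩
  choose a' ha' using hpart
  have hlog : ∀ a : Fin 3 → k, a ≠ 0 → a ⬝ᵥ P.rep = 0 → ∀ O, IsDiv C O → PR P a ≤ O →
      ∀ δ : Derivation k (F k) (F k), RegF C P O δ ↔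
        ∃ o ∈ O, δ (ev (a' a) / ev a) = s2f_g C P a * o := by
    intro a ha0 ha O hO hPR δ
    obtain ⟨π, hπ⟩ := hunif O hO
    obtain ⟨h1, h2⟩ := ha' a ha0 ha
    exact hLD k r C P a (a' a) O π δ hP h1 ha h2 hπ hPR
  -- the functions X
  have hXex : ∀ a : Fin 3 → k, ∃ X : Chart C → F k, a ≠ 0 → a ⬝ᵥ P.rep = 0 →
      (∀ u, u.a P = a → ∀ O, IsDiv C O → u.R ≤ O → X u ∈ O) ∧
      ∀ u v, u.a P = a → v.a P = a →
        D u v (ev (a' a) / ev a) / s2f_g C P a = X v - X u := by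
    intro a
    by_cases h : a ≠ 0 ∧ a ⬝ᵥ P.rep = 0
    · obtain ⟨ha0, ha⟩ := h
      obtain ⟨X, hX1, hX2⟩ := hS k r C P a hP ha0 ha
        (fun u v => D u v (ev (a' a) / ev a) / s2f_g C P a)
        (by
          intro u v hu hv O hO huO hvO
          have hPR : PR P a ≤ O := by
            rw [← hu]
            exact s2f_PR hP huO
          obtain ⟨o, ho, e⟩ := (hlog a ha0 ha O hO hPR _).mp (hreg u v O hO huO hvO)
          show D u v (ev (a' a) / ev a) / s2f_g C P a ∈ O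
          rw [e, mul_div_cancel_left₀ _ (s2f_g_ne hE ha0)]
          exact ho)
        (by
          intro u v w _ _ _
          show D u v _ / _ + D v w _ / _ = D u w _ / _
          rw [← hcoc u v w, Derivation.add_apply, add_div])
      exact ⟨X, fun _ _ => ⟨hX1, hX2⟩⟩
    · exact ⟨0, fun h1 h2 => absurd ⟨h1, h2⟩ h⟩
  choose X hX' using hXex
  have hθex : ∀ a : Fin 3 → k, ∃ θ : Derivation k (F k) (F k), a ≠ 0 → a ⬝ᵥ P.rep = 0 →
      θ (ev (a' a) / ev a) = 1 := by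
    intro a
    by_cases h : a ≠ 0 ∧ a ⬝ᵥ P.rep = 0
    · obtain ⟨h1, h2⟩ := ha' a h.1 h.2
      obtain ⟨θ, hθ⟩ := s2f_der hE hV h1 h.2 h2
      exact ⟨θ, fun _ _ => hθ⟩
    · exact ⟨0, fun h1 h2 => absurd ⟨h1, h2⟩ h⟩
  choose θ hθ using hθex
  choose uu huu using s2f_chart C P
  obtain ⟨δ, hδ⟩ : ∃ δ : Chart C → Derivation k (F k) (F k), ∀ u, δ u (ev (a' (u.a P)) / ev (u.a P)) =
      s2f_g C P (u.a P) * X (u.a P) u := by
    refine ⟨fun u => (s2f_g C P (u.a P) * X (u.a P) u) • θ (u.a P), fun u => ?_⟩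
    show (s2f_g C P (u.a P) * X (u.a P) u) • (θ (u.a P) _) = _
    rw [hθ _ (u.a_ne P hP) (u.a_through P hP), smul_eq_mul, mul_one]
  have hδreg : ∀ u O, IsDiv C O → u.R ≤ O → RegF C P O (δ u) := by
    intro u O hO huO
    refine (hlog _ (u.a_ne P hP) (u.a_through P hP) O hO (s2f_PR hP huO) _).mpr
      ⟨X (u.a P) u, ?_, hδ u⟩
    exact (hX' _ (u.a_ne P hP) (u.a_through P hP)).1 u rfl O hO huO
  have hδeq : ∀ u v : Chart C, u.a P = v.a P → EqOnF P (D u v) (δ v - δ u) := by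
    intro u v huv
    have ha0 := u.a_ne P hP
    have ha := u.a_through P hP
    obtain ⟨h1, h2⟩ := ha' _ ha0 ha
    refine s2f_eq hE h1 ha h2 ?_
    have h3 := (hX' _ ha0 ha).2 u v rfl huv.symm
    have h4 := hδ v
    rw [← huv] at h4
    rw [Derivation.sub_apply, h4, hδ u, ← mul_sub, ← h3, mul_div_cancel₀]
    exact s2f_g_ne hE ha0
  have hmain : ∀ u v : Chart C, EqOnF P (D u v) (δ v - δ u +
      (D (uu (u.a P)) (uu (v.a P)) - δ (uu (v.a P)) + δ (uu (u.a P)))) := by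
    intro u v c c' hc hc'
    have h1 := huu _ (u.a_ne P hP) (u.a_through P hP)
    have h2 := huu _ (v.a_ne P hP) (v.a_through P hP)
    have h3 := hδeq u (uu (u.a P)) h1.symm c c' hc hc'
    have h4 := hδeq (uu (v.a P)) v h2 c c' hc hc'
    rw [← hcoc u (uu (u.a P)) v, ← hcoc (uu (u.a P)) (uu (v.a P)) v]
    simp only [Derivation.add_apply, Derivation.sub_apply] at h3 h4 ⊢
    rw [h3, h4]
    ring
  refine ⟨δ, fun a₁ a₂ => D (uu a₁) (uu a₂) - δ (uu a₂) + δ (uu a₁), hδreg, ?_, hmain⟩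
  intro a₁ a₂ h1 h2 h1P h2P
  have hreg' : ∀ O, IsDiv C O → PR P a₁ ≤ O → PR P a₂ ≤ O →
      RegF C P O (D (uu a₁) (uu a₂) - δ (uu a₂) + δ (uu a₁)) := by
    intro O hO hO1 hO2
    obtain ⟨u, huO, hu⟩ := hA k r C O P a₁ hO hP h1 h1P hO1
    obtain ⟨v, hvO, hv⟩ := hA k r C O P a₂ hO hP h2 h2P hO2
    have h3 : RegF C P O (D u v - δ v + δ u) :=
      s2f_add (s2f_sub (hreg u v O hO huO hvO) (hδreg v O hO hvO)) (hδreg u O hO huO)
    refine s2f_congr ?_ h3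
    intro c c' hc hc'
    have h4 := hmain u v c c' hc hc'
    rw [hu, hv] at h4
    simp only [Derivation.add_apply, Derivation.sub_apply] at h4 ⊢
    rw [h4]
    ring
  refine ⟨hreg', ?_⟩
  obtain ⟨l1, l2⟩ := ha' a₁ h1 h1P
  have hf := hG k r C P a₁ a₂ ((D (uu a₁) (uu a₂) - δ (uu a₂) + δ (uu a₁)) (ev (a' a₁) / ev a₁))
    hP h1 h2 h1P h2P (by
      intro O hO hO1 hO2
      exact (hreg' O hO hO1 hO2).1 _ _ l2 h1P (hO1 (Algebra.subset_adjoin ⟨_, l2, rfl⟩)))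
  intro c c' hc hc'
  obtain ⟨q, hq1, hq2⟩ := s2f_val hE l1 h1P l2 hc hc'
  rw [hq2]
  exact mul_mem hq1 hf

end Pool.Agent.Lib.MP_4318ff_ag
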