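import Pool.Agent.Lib.MP_4318ff_ag.Spec.A4
import Pool.Agent.Lib.MP_4318ff_ag.A.Hart

/-!
# MP_4318ff_ag, B/S2F1: lemmas for B/S2F
-/

set_option autoImplicit false

namespace Pool.Agent.Lib.MP_4318ff_ag

open scoped LinearAlgebra.Projectivization

variable {k : Type} [Field k] {r : ℕ} {C : Config k r} {P : Pt k}

lemma s2f_li {p a a' b : Fin 3 → k} (hli : LinearIndependent k ![a, a']) (ha : a ⬝ᵥ p = 0)
    (ha' : a' ⬝ᵥ p = 0) (hb : b ⬝ᵥ p ≠ 0) : LinearIndependent k ![b, a, a'] := by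
  refine linearIndependent_finCons.mpr ⟨hli, ?_⟩
  intro hmem
  have hle : Submodule.span k (Set.range ![a, a']) ≤ LinearMap.ker (exc_f p) := by
    rw [Submodule.span_le]
    rintro x ⟨i, rfl⟩
    fin_cases i
    · exact ha
    · exact ha'
  exact hb (hle hmem)

/-- Forms through `P` in terms of a basis. -/
lemma s2f_comb (hE : EvStmt) {a a' : Fin 3 → k} (hli : LinearIndependent k ![a, a'])
    (ha : a ⬝ᵥ P.rep = 0) (ha' : a' ⬝ᵥ P.rep = 0) {c : Fin 3 → k} (hc : c ⬝ᵥ P.rep = 0) :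
    ∃ α β : k, ev c / ev a = algebraMap k (F k) α + algebraMap k (F k) β * (ev a' / ev a) := by
  obtain ⟨b, hb⟩ := exc_ne P.rep P.rep_nonzero
  have hli3 := s2f_li hli ha ha' hb
  obtain ⟨β, γ, δ, e⟩ := curve_basis hli3 c
  have ha0 : ev a ≠ 0 := fun h => hli.ne_zero 0 (((hE k).2.2 a).mp h)
  have hβ : β = 0 := by
    have h1 : β * (b ⬝ᵥ P.rep) = 0 := by
      rw [← hc, e, ← exc_f_apply P.rep (β • b + γ • a + δ • a')]
      simp only [map_add, map_smul, exc_f_apply, smul_eq_mul, ha, ha']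
      ring
    exact (mul_eq_zero.mp h1).resolve_right hb
  refine ⟨γ, δ, ?_⟩
  rw [e, curve_ev3 hE, hβ, map_zero]
  field_simp
  ring

/-- The value of a derivation on a quotient of forms through `P`. -/
lemma s2f_val (hE : EvStmt) {a a' : Fin 3 → k} (hli : LinearIndependent k ![a, a'])
    (ha : a ⬝ᵥ P.rep = 0) (ha' : a' ⬝ᵥ P.rep = 0) {c c' : Fin 3 → k} (hc : c ⬝ᵥ P.rep = 0)
    (hc' : c' ⬝ᵥ P.rep = 0) :
    ∃ q ∈ PF P, ∀ D : Derivation k (F k) (F k), D (ev c / ev c') = q * D (ev a' / ev a) := by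
  obtain ⟨α, β, e1⟩ := s2f_comb hE hli ha ha' hc
  obtain ⟨γ, δ, e2⟩ := s2f_comb hE hli ha ha' hc'
  have ha0 : ev a ≠ 0 := fun h => hli.ne_zero 0 (((hE k).2.2 a).mp h)
  have e3 : ev c / ev c' = (ev c / ev a) / (ev c' / ev a) := by
    rw [div_div_div_cancel_right₀ ha0]
  set lam := ev a' / ev a with hlam
  have hlamPF : lam ∈ PF P := IntermediateField.subset_adjoin k _ ⟨a', a, ha', ha, rfl⟩
  have hm : ∀ s t : k, algebraMap k (F k) s + algebraMap k (F k) t * lam ∈ PF P := fun s t =>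
    add_mem ((PF P).algebraMap_mem s) (mul_mem ((PF P).algebraMap_mem t) hlamPF)
  have hD : ∀ (D : Derivation k (F k) (F k)) (s t : k),
      D (algebraMap k (F k) s + algebraMap k (F k) t * lam) = algebraMap k (F k) t * D lam := by
    intro D s t
    rw [map_add, D.leibniz, D.map_algebraMap, D.map_algebraMap]
    simp
  refine ⟨(algebraMap k (F k) γ + algebraMap k (F k) δ * lam)⁻¹ ^ 2 *
    ((algebraMap k (F k) γ + algebraMap k (F k) δ * lam) * algebraMap k (F k) β -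
      (algebraMap k (F k) α + algebraMap k (F k) β * lam) * algebraMap k (F k) δ), ?_, ?_⟩
  · exact mul_mem (pow_mem (inv_mem (hm _ _)) 2) (sub_mem (mul_mem (hm _ _)
      ((PF P).algebraMap_mem _)) (mul_mem (hm _ _) ((PF P).algebraMap_mem _)))
  · intro D
    rw [e3, e1, e2, D.leibniz_div, hD, hD]
    simp only [smul_eq_mul]
    ring

lemma s2f_eq (hE : EvStmt) {a a' : Fin 3 → k} (hli : LinearIndependent k ![a, a'])
    (ha : a ⬝ᵥ P.rep = 0) (ha' : a' ⬝ᵥ P.rep = 0) {D D' : Derivation k (F k) (F k)}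
    (h : D (ev a' / ev a) = D' (ev a' / ev a)) : EqOnF P D D' := by
  intro c c' hc hc'
  obtain ⟨q, -, hq⟩ := s2f_val hE hli ha ha' hc hc'
  rw [hq, hq, h]

lemma s2f_congr {O : Subalgebra k (F k)} {D D' : Derivation k (F k) (F k)} (h : EqOnF P D D')
    (hD : RegF C P O D) : RegF C P O D' := by
  refine ⟨fun c c' hc hc' hO => ?_, fun i hi j hj hO => ?_⟩
  · rw [← h c c' hc hc']
    exact hD.1 c c' hc hc' hO
  · rw [← h _ _ hi hj]
    exact hD.2 i hi j hj hO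

lemma s2f_add {O : Subalgebra k (F k)} {D D' : Derivation k (F k) (F k)}
    (hD : RegF C P O D) (hD' : RegF C P O D') : RegF C P O (D + D') := by
  refine ⟨fun c c' hc hc' hO => ?_, fun i hi j hj hO => ?_⟩
  · rw [Derivation.add_apply]
    exact add_mem (hD.1 c c' hc hc' hO) (hD'.1 c c' hc hc' hO)
  · rw [Derivation.add_apply, add_div]
    exact add_mem (hD.2 i hi j hj hO) (hD'.2 i hi j hj hO)

lemma s2f_sub {O : Subalgebra k (F k)} {D D' : Derivation k (F k) (F k)}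
    (hD : RegF C P O D) (hD' : RegF C P O D') : RegF C P O (D - D') := by
  refine ⟨fun c c' hc hc' hO => ?_, fun i hi j hj hO => ?_⟩
  · rw [Derivation.sub_apply]
    exact sub_mem (hD.1 c c' hc hc' hO) (hD'.1 c c' hc hc' hO)
  · rw [Derivation.sub_apply, sub_div]
    exact sub_mem (hD.2 i hi j hj hO) (hD'.2 i hi j hj hO)

/-- A derivation with the value `1` at `a'/a`. -/
lemma s2f_der [CharZero k] (hE : EvStmt) (hV : DerVStmt) {a a' : Fin 3 → k}
    (hli : LinearIndependent k ![a, a']) (ha : a ⬝ᵥ P.rep = 0) (ha' : a' ⬝ᵥ P.rep = 0) :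
    ∃ θ : Derivation k (F k) (F k), θ (ev a' / ev a) = 1 := by
  obtain ⟨b, hb⟩ := exc_ne P.rep P.rep_nonzero
  have hli3 := s2f_li hli ha ha' hb
  have ha0 : ev a ≠ 0 := fun h => hli.ne_zero 0 (((hE k).2.2 a).mp h)
  obtain ⟨w, hw1, hw2⟩ : ∃ w : Fin 3 → k, a ⬝ᵥ w = 0 ∧ a' ⬝ᵥ w = 1 := by
    have hu : IsUnit (Matrix.of ![b, a, a']) := Matrix.linearIndependent_rows_iff_isUnit.mp hli3
    have h1 : (Matrix.of ![b, a, a']).mulVec ((Matrix.of ![b, a, a'])⁻¹.mulVec ![0, 0, 1]) =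
        ![0, 0, 1] := by
      rw [Matrix.mulVec_mulVec, Matrix.mul_nonsing_inv _ ((Matrix.isUnit_iff_isUnit_det _).mp hu),
        Matrix.one_mulVec]
    exact ⟨_, congrFun h1 1, congrFun h1 2⟩
  obtain ⟨θ, hθ⟩ := hV k (F k) (fun i => algebraMap k (F k) (w i) * ev a)
  have hs : ∀ c : Fin 3 → k, ∑ i, algebraMap k (F k) (c i) * (algebraMap k (F k) (w i) * ev a) =
      algebraMap k (F k) (c ⬝ᵥ w) * ev a := by
    intro c
    rw [dotProduct, map_sum, Finset.sum_mul]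
    refine Finset.sum_congr rfl fun i _ => ?_
    rw [map_mul]
    ring
  have h1 := hθ a
  have h2 := hθ a'
  rw [hs, hw1] at h1
  rw [hs, hw2] at h2
  simp only [Algebra.algebraMap_self, RingHom.id_apply, map_zero, map_one] at h1 h2
  refine ⟨θ, ?_⟩
  rw [θ.leibniz_div, h1, h2]
  simp only [smul_eq_mul]
  field_simp
  ring

open Classical in
/-- The logarithmic factor. -/
noncomputable def s2f_g (C : Config k r) (P : Pt k) (a : Fin 3 → k) : F k :=
  ∏ i ∈ Finset.univ.filter (fun i => i ∈ C.through P ∧ LinearIndependent k ![C.ℓ i, a]),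
    ev (C.ℓ i) / ev a

lemma s2f_g_ne (hE : EvStmt) {a : Fin 3 → k} (ha0 : a ≠ 0) : s2f_g C P a ≠ 0 := by
  classical
  unfold s2f_g
  rw [Finset.prod_ne_zero_iff]
  intro i hi
  obtain ⟨-, -, hli⟩ := Finset.mem_filter.mp hi
  refine div_ne_zero (fun h => ?_) (fun h => ?_)
  · exact hli.ne_zero 0 (((hE k).2.2 _).mp h)
  · exact ha0 (((hE k).2.2 _).mp h)

lemma s2f_PR {u : Chart C} (hP : P ∈ C.M) {O : Subalgebra k (F k)} (h : u.R ≤ O) :
    PR P (u.a P) ≤ O := by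
  refine Algebra.adjoin_le ?_
  rintro z ⟨c, hc, rfl⟩
  exact h (hart_gen2 u hP c hc)

/-- Charts with a given form. -/
lemma s2f_chart (C : Config k r) (P : Pt k) (a : Fin 3 → k) :
    ∃ u : Chart C, a ≠ 0 → a ⬝ᵥ P.rep = 0 → u.a P = a := by
  classical
  have h1 : ∀ Q : Pt k, ∃ c : Fin 3 → k, c ≠ 0 ∧ c ⬝ᵥ Q.rep = 0 := by
    intro Q
    obtain ⟨b, c, d, hli, -, hc, -⟩ := exc_perp Q.rep Q.rep_nonzero
    exact ⟨c, hli.ne_zero 1, hc⟩
  choose e he0 he using h1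
  by_cases h : a ≠ 0 ∧ a ⬝ᵥ P.rep = 0
  · refine ⟨⟨a, h.1, fun Q => if Q = P then a else e Q, ?_, ?_⟩, fun _ _ => if_pos rfl⟩
    · intro Q _
      split_ifs with h'
      · exact h.1
      · exact he0 Q
    · intro Q _
      split_ifs with h'
      · rw [h']
        exact h.2
      · exact he Q
  · exact ⟨⟨e P, he0 P, e, fun Q _ => he0 Q, fun Q _ => he Q⟩, fun h1 h2 => absurd ⟨h1, h2⟩ h⟩

end Pool.Agent.Lib.MP_4318ff_ag
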