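import Pool.Agent.Lib.MP_4318ff_ag.B.Side2

/-!
# MP_4318ff_ag, B/Side: vanishing of the first cohomology of the structure sheaf on the sides

Hypotheses used: `EvStmt`, `CoordStmt`, `LocStmt`, `CurveStmt`, `ExcStmt`, `MFinStmt`, `HartUVStmt`, `SideTStmt`, `SidePStmt`.
-/

set_option autoImplicit false

namespace Pool.Agent.Lib.MP_4318ff_ag

open MvPolynomial
open scoped LinearAlgebra.Projectivization

variable {k : Type} [Field k] {r : ℕ} {C : Config k r} {P : Pt k} {a a' b : Fin 3 → k}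

open Classical in
/-- The polar part at the line of `T`. -/
lemma side_yT (hE : EvStmt) (hC : CoordStmt) (hL : LocStmt) (hM : MFinStmt) (hUV : HartUVStmt)
    (hS : SideTStmt) (D : side_D C P a a' b) (c : Chart C → Chart C → F k)
    (hc : ∀ u v, u.a P = a → v.a P = a → ∀ O, IsDiv C O → u.R ≤ O → v.R ≤ O → c u v ∈ O)
    {T : Pt k} (hTM : T ∈ C.M) (hT : a ⬝ᵥ T.rep ≠ 0) :
    ∃ y : F k, (∀ S : Subalgebra k (F k), ev a' / ev a ∈ S →
        ev (side_form a a' T) / ev (side_form a b T) ∈ S → y ∈ S) ∧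
      ∀ O : Subalgebra k (F k),
        IsLoc (ev a' / ev a) (ev b / ev a) (X 1 - MvPolynomial.C (side_x a b T)) O →
        c (side_u0 D) (side_uT D T) - y ∈ O := by
  have hcoord := (hC k a a' b (side_perm D.li)).1
  obtain ⟨O₀, hO₀⟩ := (hL k _ _ hcoord _ (side_irr (side_x a b T))).1
  have hfin : C.M.Finite := hM k r C
  have hmem := hUV k r C (side_u0 D) (side_uT D T) _
    (hc (side_u0 D) (side_uT D T) (side_u0_aP D) (side_uT_aP D T))
  have hpts : ∀ q ∈ (hfin.toFinset.filter (fun Q => a ⬝ᵥ Q.rep ≠ 0 ∧ Q ≠ T)).image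
      (fun Q => (side_x a a' Q, side_x a b Q)), q.2 ≠ side_x a b T := by
    intro q hq
    obtain ⟨Q, hQ, rfl⟩ := Finset.mem_image.mp hq
    obtain ⟨hQM, hQ1, hQ2⟩ := Finset.mem_filter.mp hQ
    intro h
    exact hQ2 (D.inj Q (hfin.mem_toFinset.mp hQM) T hTM hQ1 hT h)
  obtain ⟨y, hy, hyO⟩ := hS k (ev a' / ev a) (ev b / ev a) (side_x a a' T) (side_x a b T) _ O₀
    hcoord hO₀ hpts (c (side_u0 D) (side_uT D T)) (by
      have g1 : ∀ z ∈ ({ev a' / ev a, ev b / ev a,
          (ev b / ev a - algebraMap k (F k) (side_x a b T)) /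
            (ev a' / ev a - algebraMap k (F k) (side_x a a' T)),
          (ev a' / ev a - algebraMap k (F k) (side_x a a' T)) /
            (ev b / ev a - algebraMap k (F k) (side_x a b T))} : Set (F k)),
          z ∈ Algebra.adjoin k (({ev a' / ev a, ev b / ev a,
          (ev b / ev a - algebraMap k (F k) (side_x a b T)) /
            (ev a' / ev a - algebraMap k (F k) (side_x a a' T)),
          (ev a' / ev a - algebraMap k (F k) (side_x a a' T)) /
            (ev b / ev a - algebraMap k (F k) (side_x a b T))} : Set (F k)) ∪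
          {z | ∃ q ∈ (hfin.toFinset.filter (fun Q => a ⬝ᵥ Q.rep ≠ 0 ∧ Q ≠ T)).image
            (fun Q => (side_x a a' Q, side_x a b Q)),
            z = (ev a' / ev a - algebraMap k (F k) q.1) /
              (ev b / ev a - algebraMap k (F k) q.2)}) :=
        fun z hz => Algebra.subset_adjoin (Or.inl hz)
      have m1 := g1 (ev a' / ev a) (by simp)
      have m2 := g1 (ev b / ev a) (by simp)
      have m3 := g1 _ (Set.mem_insert_of_mem _ (Set.mem_insert_of_mem _ (Set.mem_insert _ _)))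
      have m4 := g1 _ (Set.mem_insert_of_mem _ (Set.mem_insert_of_mem _
        (Set.mem_insert_of_mem _ (Set.mem_singleton _))))
      refine (sup_le ?_ ?_ : (side_u0 D).R ⊔ (side_uT D T).R ≤ _) hmem
      · refine side_u0_le hE D m1 m2 ?_
        intro Q hQM hQ
        rw [side_LX hE D]
        by_cases hQT : Q = T
        · rw [hQT]
          exact m4
        · exact Algebra.subset_adjoin (Or.inr ⟨_, Finset.mem_image.mpr ⟨Q, Finset.mem_filter.mpr
            ⟨hfin.mem_toFinset.mpr hQM, hQ, hQT⟩, rfl⟩, rfl⟩)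
      · refine side_uT_le hE D T m1 m2 ?_ ?_
        · intro Q hQM hQ hQT
          rw [side_LX hE D]
          exact Algebra.subset_adjoin (Or.inr ⟨_, Finset.mem_image.mpr ⟨Q, Finset.mem_filter.mpr
            ⟨hfin.mem_toFinset.mpr hQM, hQ, hQT⟩, rfl⟩, rfl⟩)
        · rw [side_XL hE D]
          exact m3)
  refine ⟨y, ?_, ?_⟩
  · intro S h1 h2
    refine (Algebra.adjoin_le ?_ : _ ≤ S) hy
    rw [side_LX hE D] at h2
    rintro z (rfl | rfl)
    · exact h1
    · exact h2
  · intro O hO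
    exact (hO.2 _).mpr ((hO₀.2 _).mp hyO)

/-- The polar part at the exceptional curve over `P`. -/
lemma side_yP (hE : EvStmt) (hC : CoordStmt) (hX : ExcStmt) (hUV : HartUVStmt)
    (hS : SidePStmt) (D : side_D C P a a' b) (c : Chart C → Chart C → F k)
    (hc : ∀ u v, u.a P = a → v.a P = a → ∀ O, IsDiv C O → u.R ≤ O → v.R ≤ O → c u v ∈ O) :
    ∃ y : F k, (∀ S : Subalgebra k (F k), ev a' / ev a ∈ S → ev b / ev a ∈ S → y ∈ S) ∧
      ∀ O : Subalgebra k (F k), IsExc P O → c (side_u0 D) (side_uP D) - y ∈ O := by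
  have ha0 : ev a ≠ 0 := fun h => D.a_ne (((hE k).2.2 a).mp h)
  have hcoord := (hC k a a' b (side_perm D.li)).1
  have hcoord' := (hC k b a a' D.li).2
  obtain ⟨⟨O₀, hO₀⟩, hX2⟩ := hX k P
  have hloc₀ := (hX2 O₀ hO₀).2.2.2 b a a' D.li D.ha D.ha'
  have hone : 1 / (ev b / ev a) = ev a / ev b := one_div_div _ _
  have hmem := hUV k r C (side_u0 D) (side_uP D) _
    (hc (side_u0 D) (side_uP D) (side_u0_aP D) (side_uP_aP D))
  obtain ⟨y, hy, hyO⟩ := hS k (ev a' / ev a) (ev b / ev a) O₀ hcoord (by rw [hone]; exact hcoord')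
    (by rw [hone]; exact hloc₀) (c (side_u0 D) (side_uP D)) (by
      set A := Algebra.adjoin k (({ev a' / ev a, ev b / ev a} : Set (F k)) ∪
        {z | ∃ α β γ : k, β ≠ 0 ∧ z = (algebraMap k (F k) β * (ev b / ev a) +
          algebraMap k (F k) α * (ev a' / ev a) + algebraMap k (F k) γ)⁻¹}) with hA
      have m1 : ev a' / ev a ∈ A := Algebra.subset_adjoin (Or.inl (by simp))
      have m2 : ev b / ev a ∈ A := Algebra.subset_adjoin (Or.inl (by simp))
      have m3 : ∀ c e : Fin 3 → k, e ⬝ᵥ P.rep ≠ 0 → ev c / ev e ∈ A := by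
        intro c e he
        obtain ⟨β, γ, α, e'⟩ := curve_basis D.li e
        have hβ : β ≠ 0 := by
          rintro rfl
          apply he
          rw [e', ← exc_f_apply P.rep]
          simp only [map_add, map_smul, exc_f_apply, smul_eq_mul, D.ha, D.ha']
          ring
        have he0 : ev e ≠ 0 := by
          intro h
          have := ((hE k).2.2 e).mp h
          rw [this, zero_dotProduct] at he
          exact he rfl
        have h1 : ev c / ev e = ev c / ev a * (ev e / ev a)⁻¹ := by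
          field_simp
        have h2 : ev e / ev a = algebraMap k (F k) β * (ev b / ev a) +
            algebraMap k (F k) α * (ev a' / ev a) + algebraMap k (F k) γ := by
          rw [e', curve_ev3 hE]
          field_simp
          ring
        rw [h1, h2]
        exact mul_mem (side_mem_a hE D m1 m2 c) (Algebra.subset_adjoin (Or.inr ⟨α, β, γ, hβ, rfl⟩))
      refine (sup_le ?_ ?_ : (side_u0 D).R ⊔ (side_uP D).R ≤ A) hmem
      · exact side_u0_le hE D m1 m2 fun Q _ _ => m3 _ _ (D.formX_P Q)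
      · exact side_uP_le D m3 fun c _ => side_mem_a hE D m1 m2 c)
  refine ⟨y, ?_, ?_⟩
  · intro S h1 h2
    refine (Algebra.adjoin_le ?_ : _ ≤ S) hy
    rintro z (rfl | rfl)
    · exact h1
    · exact h2
  · intro O hO
    have hloc := (hX2 O hO).2.2.2 b a a' D.li D.ha D.ha'
    exact (hloc.2 _).mpr ((hloc₀.2 _).mp hyO)

/-- The choice of the coordinates. -/
lemma side_exD [Infinite k] (hM : MFinStmt) (hP : P ∈ C.M) (ha0 : a ≠ 0) (ha : a ⬝ᵥ P.rep = 0) :
    ∃ a' b : Fin 3 → k, side_D C P a a' b := by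
  classical
  have hfin : C.M.Finite := hM k r C
  obtain ⟨b1, -, -, -, hb1, -, -⟩ := exc_perp P.rep P.rep_nonzero
  obtain ⟨a', hli, ha'⟩ := hart_ext P.rep_nonzero ha0 ha hb1
  have hli2 : LinearIndependent k ![a, a'] := (linearIndependent_finCons.mp hli).1
  obtain ⟨b, hb⟩ := side_avoid (k := k) (((hfin.toFinset ×ˢ hfin.toFinset).filter
      (fun q => a ⬝ᵥ q.1.rep ≠ 0 ∧ a ⬝ᵥ q.2.rep ≠ 0 ∧ q.1 ≠ q.2)).image
      (fun q => (a ⬝ᵥ q.1.rep)⁻¹ • q.1.rep - (a ⬝ᵥ q.2.rep)⁻¹ • q.2.rep) ∪ {P.rep}) (by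
    intro v hv
    rcases Finset.mem_union.mp hv with hv | hv
    · obtain ⟨q, hq, rfl⟩ := Finset.mem_image.mp hv
      obtain ⟨-, h1, h2, h3⟩ := Finset.mem_filter.mp hq
      intro h
      obtain ⟨e, he1, he2⟩ := hart_sep h3
      have h4 : e ⬝ᵥ ((a ⬝ᵥ q.1.rep)⁻¹ • q.1.rep - (a ⬝ᵥ q.2.rep)⁻¹ • q.2.rep) = 0 := by
        rw [h, dotProduct_zero]
      rw [dotProduct_sub, dotProduct_smul, dotProduct_smul, he1, smul_zero, zero_sub,
        neg_eq_zero, smul_eq_mul] at h4
      rcases mul_eq_zero.mp h4 with h5 | h5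
      · exact inv_ne_zero h2 h5
      · exact he2 h5
    · rw [Finset.mem_singleton.mp hv]
      exact P.rep_nonzero)
  have hbP : b ⬝ᵥ P.rep ≠ 0 := hb _ (Finset.mem_union_right _ (Finset.mem_singleton_self _))
  refine ⟨a', b, hP, ha, ha', hbP, ?_, ?_⟩
  · refine linearIndependent_finCons.mpr ⟨hli2, ?_⟩
    intro hmem
    have hle : Submodule.span k (Set.range ![a, a']) ≤ LinearMap.ker (exc_f P.rep) := by
      rw [Submodule.span_le]
      rintro x ⟨i, rfl⟩
      fin_cases i
      · exact ha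
      · exact ha'
    exact hbP (hle hmem)
  · intro T hTM T' hTM' hT hT' hx
    by_contra hne
    refine hb _ (Finset.mem_union_left _ (Finset.mem_image.mpr ⟨(T, T'), Finset.mem_filter.mpr
      ⟨Finset.mem_product.mpr ⟨hfin.mem_toFinset.mpr hTM, hfin.mem_toFinset.mpr hTM'⟩,
        hT, hT', hne⟩, rfl⟩)) ?_
    unfold side_x at hx
    rw [dotProduct_sub, dotProduct_smul, dotProduct_smul, smul_eq_mul, smul_eq_mul, sub_eq_zero,
      inv_mul_eq_div, inv_mul_eq_div]
    exact hx

open Classical in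
theorem tSide (hE : EvStmt) (hC : CoordStmt) (hL : LocStmt) (hK : CurveStmt) (hX : ExcStmt)
    (hM : MFinStmt) (hUV : HartUVStmt) (hST : SideTStmt) (hSP : SidePStmt) : SideStmt := by
  intro k _ _ r C P a hP ha0 ha c hc hcoc
  have : Infinite k := IsAlgClosed.instInfinite
  obtain ⟨a', b, D⟩ := side_exD (C := C) hM hP ha0 ha
  have hfin : C.M.Finite := hM k r C
  have hyT : ∀ T : Pt k, ∃ y : F k, T ∈ C.M → a ⬝ᵥ T.rep ≠ 0 → (∀ S : Subalgebra k (F k),
      ev a' / ev a ∈ S → ev (side_form a a' T) / ev (side_form a b T) ∈ S → y ∈ S) ∧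
      ∀ O : Subalgebra k (F k),
        IsLoc (ev a' / ev a) (ev b / ev a) (X 1 - MvPolynomial.C (side_x a b T)) O →
        c (side_u0 D) (side_uT D T) - y ∈ O := by
    intro T
    by_cases h : T ∈ C.M ∧ a ⬝ᵥ T.rep ≠ 0
    · obtain ⟨y, hy⟩ := side_yT hE hC hL hM hUV hST D c hc h.1 h.2
      exact ⟨y, fun _ _ => hy⟩
    · exact ⟨0, fun h1 h2 => absurd ⟨h1, h2⟩ h⟩
  choose y hy using hyT
  obtain ⟨yP, hyP1, hyP2⟩ := side_yP hE hC hX hUV hSP D c hc
  set M1 := hfin.toFinset.filter (fun T => a ⬝ᵥ T.rep ≠ 0) with hM1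
  have hM1mem : ∀ T, T ∈ M1 ↔ T ∈ C.M ∧ a ⬝ᵥ T.rep ≠ 0 := by
    intro T
    rw [hM1, Finset.mem_filter, hfin.mem_toFinset]
  refine ⟨fun u => -(∑ T ∈ M1, y T) - yP + c (side_u0 D) u, ?_, ?_⟩
  · intro u hu O hO huO
    show -(∑ T ∈ M1, y T) - yP + c (side_u0 D) u ∈ O
    have hlam : ev a' / ev a ∈ O := by
      have h1 := huO (hart_gen2 u hP a' D.ha')
      rw [hu] at h1
      exact h1
    -- the case of the base chart
    have hbase : (side_u0 D).R ≤ O → -(∑ T ∈ M1, y T) - yP + c (side_u0 D) u ∈ O := by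
      intro h0
      have hx : ev b / ev a ∈ O := h0 (hart_gen1 (side_u0 D) b)
      refine add_mem (sub_mem (neg_mem (sum_mem fun T hT => ?_)) (hyP1 O hlam hx))
        (hc _ _ (side_u0_aP D) hu O hO h0 huO)
      obtain ⟨hTM, hT⟩ := (hM1mem T).mp hT
      refine (hy T hTM hT).1 O hlam ?_
      have h1 := h0 (hart_gen2 (side_u0 D) hTM (side_form a a' T) (side_form_T a' hT))
      have h2 : (side_u0 D).a T = side_form a b T := by
        unfold side_u0
        simp only
        rw [if_neg hT]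
      rw [h2] at h1
      exact h1
    rcases hO with hO' | ⟨T, hTM, hO'⟩
    · obtain ⟨hUa, h | ⟨T, hTM, hT, h1, h2, h3⟩⟩ := side_curve hE hC hL hK D hO' hlam
      · exact hbase (side_u0_le hE D hlam (hUa.2 b) fun Q hQM hQ => (h Q hQM hQ).2 _)
      · have hle : (side_uT D T).R ≤ O := side_uT_le hE D T hlam (hUa.2 b)
          (fun Q hQM hQ hQT => (h1 Q hQM hQ hQT).2 _) (h2.2 _)
        have h4 := (hy T hTM hT).2 O h3
        have h5 := hc (side_uT D T) u (side_uT_aP D T) hu O (Or.inl hO') hle huO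
        have h6 := hcoc (side_u0 D) (side_uT D T) u (side_u0_aP D) (side_uT_aP D T) hu
        have h7 : ∑ Q ∈ M1.erase T, y Q ∈ O := by
          refine sum_mem fun Q hQ => ?_
          obtain ⟨hQT, hQ'⟩ := Finset.mem_erase.mp hQ
          obtain ⟨hQM, hQ⟩ := (hM1mem Q).mp hQ'
          exact (hy Q hQM hQ).1 O hlam ((h1 Q hQM hQ hQT).2 _)
        have h8 := Finset.sum_erase_add M1 y ((hM1mem T).mpr ⟨hTM, hT⟩)
        have h9 : -(∑ T ∈ M1, y T) - yP + c (side_u0 D) u =
            (c (side_u0 D) (side_uT D T) - y T) + c (side_uT D T) u -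
              ∑ Q ∈ M1.erase T, y Q - yP := by
          rw [← h6, ← h8]
          ring
        rw [h9]
        exact sub_mem (sub_mem (add_mem h4 h5) h7) (hyP1 O hlam (hUa.2 b))
    · by_cases hTP : T = P
      · rw [hTP] at hO' hTM
        obtain ⟨x1, x2, -, -⟩ := (hX k P).2 O hO'
        have hle : (side_uP D).R ≤ O := side_uP_le D (fun c e he => (x1 e he).2 c)
          (fun c hc => x2 a c D.a_ne D.ha hc)
        have h4 := hyP2 O hO'
        have h5 := hc (side_uP D) u (side_uP_aP D) hu O (Or.inr ⟨P, hTM, hO'⟩) hle huO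
        have h6 := hcoc (side_u0 D) (side_uP D) u (side_u0_aP D) (side_uP_aP D) hu
        have h7 : ∑ Q ∈ M1, y Q ∈ O := by
          refine sum_mem fun Q hQ' => ?_
          obtain ⟨hQM, hQ⟩ := (hM1mem Q).mp hQ'
          exact (hy Q hQM hQ).1 O hlam ((x1 _ (D.formX_P Q)).2 _)
        have h9 : -(∑ T ∈ M1, y T) - yP + c (side_u0 D) u =
            (c (side_u0 D) (side_uP D) - yP) + c (side_uP D) u - ∑ Q ∈ M1, y Q := by
          rw [← h6]
          ring
        rw [h9]
        exact sub_mem (add_mem h4 h5) h7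
      · exact hbase (side_exc hE hX D hTM hTP hO' hlam)
  · intro u v hu hv
    have h1 := hcoc (side_u0 D) u v (side_u0_aP D) hu hv
    simp only
    rw [← h1]
    ring

end Pool.Agent.Lib.MP_4318ff_ag
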