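import Pool.Agent.Lib.MP_4318ff_ag.B.Side1

/-!
# MP_4318ff_ag, B/Side2: the charts used for the vanishing of the cohomology of the sides
-/

set_option autoImplicit false

namespace Pool.Agent.Lib.MP_4318ff_ag

open MvPolynomial
open scoped LinearAlgebra.Projectivization

variable {k : Type} [Field k] {r : ℕ} {C : Config k r} {P : Pt k} {a a' b : Fin 3 → k}

open Classical in
/-- The base chart. -/
noncomputable def side_u0 (D : side_D C P a a' b) : Chart C where
  b := a
  b_ne := D.a_ne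
  a Q := if a ⬝ᵥ Q.rep = 0 then a else side_form a b Q
  a_ne := by
    intro Q _
    split_ifs with h
    · exact D.a_ne
    · exact D.formX_ne Q
  a_through := by
    intro Q _
    split_ifs with h
    · exact h
    · exact side_form_T b h

open Classical in
/-- The chart around the line of `T`. -/
noncomputable def side_uT (D : side_D C P a a' b) (T : Pt k) : Chart C where
  b := a
  b_ne := D.a_ne
  a Q := if a ⬝ᵥ Q.rep = 0 then a else if Q = T then side_form a a' Q else side_form a b Q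
  a_ne := by
    intro Q _
    split_ifs with h h'
    · exact D.a_ne
    · exact D.formL_ne Q
    · exact D.formX_ne Q
  a_through := by
    intro Q _
    split_ifs with h h'
    · exact h
    · exact side_form_T a' h
    · exact side_form_T b h

open Classical in
/-- The chart around the exceptional curve over `P`. -/
noncomputable def side_uP (D : side_D C P a a' b) : Chart C where
  b := b
  b_ne := D.b_ne
  a Q := if h : Q = P then a else (hart_sep h).choose
  a_ne := by
    intro Q _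
    split_ifs with h
    · exact D.a_ne
    · intro h0
      have h1 := (hart_sep h).choose_spec.2
      rw [h0] at h1
      exact h1 (zero_dotProduct _)
  a_through := by
    intro Q _
    split_ifs with h
    · rw [h]
      exact D.ha
    · exact (hart_sep h).choose_spec.1

lemma side_u0_aP (D : side_D C P a a' b) : (side_u0 D).a P = a := by
  unfold side_u0
  simp only
  rw [if_pos D.ha]

lemma side_uT_aP (D : side_D C P a a' b) (T : Pt k) : (side_uT D T).a P = a := by
  unfold side_uT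
  simp only
  rw [if_pos D.ha]

lemma side_uP_aP (D : side_D C P a a' b) : (side_uP D).a P = a := by
  exact dif_pos rfl

lemma side_mem_a (hE : EvStmt) (D : side_D C P a a' b) {S : Subalgebra k (F k)}
    (h1 : ev a' / ev a ∈ S) (h2 : ev b / ev a ∈ S) (c : Fin 3 → k) : ev c / ev a ∈ S := by
  have ha0 : ev a ≠ 0 := fun h => D.a_ne (((hE k).2.2 a).mp h)
  obtain ⟨γ, δ, β, e⟩ := curve_basis D.li c
  have h3 : ev c / ev a = algebraMap k (F k) γ * (ev b / ev a) + algebraMap k (F k) δ +
      algebraMap k (F k) β * (ev a' / ev a) := by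
    rw [e, curve_ev3 hE]
    field_simp
  rw [h3]
  exact add_mem (add_mem (mul_mem (S.algebraMap_mem _) h2) (S.algebraMap_mem _))
    (mul_mem (S.algebraMap_mem _) h1)

lemma side_mem_X (hE : EvStmt) (D : side_D C P a a' b) {S : Subalgebra k (F k)} {Q : Pt k}
    (hQ : a ⬝ᵥ Q.rep ≠ 0) (h1 : ev (side_form a a' Q) / ev (side_form a b Q) ∈ S)
    {c : Fin 3 → k} (hc : c ⬝ᵥ Q.rep = 0) : ev c / ev (side_form a b Q) ∈ S := by
  have h0 : ev (side_form a b Q) ≠ 0 := fun h => D.formX_ne Q (((hE k).2.2 _).mp h)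
  obtain ⟨γ, β, e⟩ := D.comb hQ hc
  have h3 : ev c / ev (side_form a b Q) = algebraMap k (F k) γ +
      algebraMap k (F k) β * (ev (side_form a a' Q) / ev (side_form a b Q)) := by
    rw [e, (hE k).1, (hE k).2.1, (hE k).2.1]
    field_simp
  rw [h3]
  exact add_mem (S.algebraMap_mem _) (mul_mem (S.algebraMap_mem _) h1)

lemma side_mem_L (hE : EvStmt) (D : side_D C P a a' b) {S : Subalgebra k (F k)} {Q : Pt k}
    (hQ : a ⬝ᵥ Q.rep ≠ 0) (h1 : ev (side_form a b Q) / ev (side_form a a' Q) ∈ S)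
    {c : Fin 3 → k} (hc : c ⬝ᵥ Q.rep = 0) : ev c / ev (side_form a a' Q) ∈ S := by
  have h0 : ev (side_form a a' Q) ≠ 0 := fun h => D.formL_ne Q (((hE k).2.2 _).mp h)
  obtain ⟨γ, β, e⟩ := D.comb hQ hc
  have h3 : ev c / ev (side_form a a' Q) = algebraMap k (F k) β +
      algebraMap k (F k) γ * (ev (side_form a b Q) / ev (side_form a a' Q)) := by
    rw [e, (hE k).1, (hE k).2.1, (hE k).2.1]
    field_simp
    ring
  rw [h3]
  exact add_mem (S.algebraMap_mem _) (mul_mem (S.algebraMap_mem _) h1)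

lemma side_u0_le (hE : EvStmt) (D : side_D C P a a' b) {S : Subalgebra k (F k)}
    (h1 : ev a' / ev a ∈ S) (h2 : ev b / ev a ∈ S)
    (h3 : ∀ Q ∈ C.M, a ⬝ᵥ Q.rep ≠ 0 → ev (side_form a a' Q) / ev (side_form a b Q) ∈ S) :
    (side_u0 D).R ≤ S := by
  refine hart_le _ S (fun c => side_mem_a hE D h1 h2 c) ?_
  intro Q hQM c hc
  unfold side_u0
  simp only
  split_ifs with h
  · exact side_mem_a hE D h1 h2 c
  · exact side_mem_X hE D h (h3 Q hQM h) hc

lemma side_uT_le (hE : EvStmt) (D : side_D C P a a' b) (T : Pt k) {S : Subalgebra k (F k)}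
    (h1 : ev a' / ev a ∈ S) (h2 : ev b / ev a ∈ S)
    (h3 : ∀ Q ∈ C.M, a ⬝ᵥ Q.rep ≠ 0 → Q ≠ T → ev (side_form a a' Q) / ev (side_form a b Q) ∈ S)
    (h4 : ev (side_form a b T) / ev (side_form a a' T) ∈ S) :
    (side_uT D T).R ≤ S := by
  refine hart_le _ S (fun c => side_mem_a hE D h1 h2 c) ?_
  intro Q hQM c hc
  unfold side_uT
  simp only
  split_ifs with h h'
  · exact side_mem_a hE D h1 h2 c
  · rw [h'] at h hc ⊢
    exact side_mem_L hE D h h4 hc
  · exact side_mem_X hE D h (h3 Q hQM h h') hc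

lemma side_uP_le (D : side_D C P a a' b) {S : Subalgebra k (F k)}
    (h1 : ∀ c e : Fin 3 → k, e ⬝ᵥ P.rep ≠ 0 → ev c / ev e ∈ S)
    (h2 : ∀ c : Fin 3 → k, c ⬝ᵥ P.rep = 0 → ev c / ev a ∈ S) :
    (side_uP D).R ≤ S := by
  refine hart_le _ S (fun c => h1 c b D.hb) ?_
  intro Q hQM c hc
  unfold side_uP
  simp only
  split_ifs with h
  · rw [h] at hc
    exact h2 c hc
  · exact h1 c _ (hart_sep h).choose_spec.2

lemma side_LX (hE : EvStmt) (D : side_D C P a a' b) (Q : Pt k) :
    ev (side_form a a' Q) / ev (side_form a b Q) =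
      (ev a' / ev a - algebraMap k (F k) (side_x a a' Q)) /
        (ev b / ev a - algebraMap k (F k) (side_x a b Q)) := by
  have ha0 : ev a ≠ 0 := fun h => D.a_ne (((hE k).2.2 a).mp h)
  rw [← side_ev hE D.a_ne, ← side_ev hE D.a_ne, div_div_div_cancel_right₀ ha0]

lemma side_XL (hE : EvStmt) (D : side_D C P a a' b) (Q : Pt k) :
    ev (side_form a b Q) / ev (side_form a a' Q) =
      (ev b / ev a - algebraMap k (F k) (side_x a b Q)) /
        (ev a' / ev a - algebraMap k (F k) (side_x a a' Q)) := by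
  have ha0 : ev a ≠ 0 := fun h => D.a_ne (((hE k).2.2 a).mp h)
  rw [← side_ev hE D.a_ne, ← side_ev hE D.a_ne, div_div_div_cancel_right₀ ha0]

/-- The curves over the side. -/
lemma side_curve (hE : EvStmt) (hC : CoordStmt) (hL : LocStmt) (hK : CurveStmt)
    (D : side_D C P a a' b) {O : Subalgebra k (F k)} (hO : IsCurve O) (hlam : ev a' / ev a ∈ O) :
    UnitForm O a ∧ ((∀ Q ∈ C.M, a ⬝ᵥ Q.rep ≠ 0 → UnitForm O (side_form a b Q)) ∨
      ∃ T ∈ C.M, a ⬝ᵥ T.rep ≠ 0 ∧
        (∀ Q ∈ C.M, a ⬝ᵥ Q.rep ≠ 0 → Q ≠ T → UnitForm O (side_form a b Q)) ∧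
        UnitForm O (side_form a a' T) ∧
        IsLoc (ev a' / ev a) (ev b / ev a) (X 1 - MvPolynomial.C (side_x a b T)) O) := by
  obtain ⟨-, -, k3, k4⟩ := hK k O hO
  have hUa : UnitForm O a := by
    rcases k3 a D.a_ne with h | h
    · exact h
    · exfalso
      have hli : LinearIndependent k ![a, a'] := (linearIndependent_finCons.mp D.li).1
      have h1 := (h a' hli).2.2.1
      rw [inv_div] at h1
      exact h1 hlam
  refine ⟨hUa, ?_⟩
  by_cases hall : ∀ Q ∈ C.M, a ⬝ᵥ Q.rep ≠ 0 → UnitForm O (side_form a b Q)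
  · exact Or.inl hall
  right
  push Not at hall
  obtain ⟨T, hTM, hT, hTU⟩ := hall
  have h3 := (k3 _ (D.formX_ne T)).resolve_left hTU
  refine ⟨T, hTM, hT, ?_, (h3 _ (D.liXL T)).1, ?_⟩
  · intro Q hQM hQ hQT
    refine (h3 _ (D.liXX ?_)).1
    intro hx
    exact hQT (D.inj T hTM Q hQM hT hQ hx).symm
  · obtain ⟨p, hp⟩ := k4 a a' b (side_perm D.li) hUa
    have hcoord := (hC k a a' b (side_perm D.li)).1
    have hdvd : p ∣ (X 1 - MvPolynomial.C (side_x a b T)) := by
      by_contra hcon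
      have h5 := ((hL k _ _ hcoord p hp.1).2 O hp).2.1 _ (side_irr (side_x a b T)).ne_zero
      have h6 := h5.mpr hcon
      rw [map_sub, curve_cm1, curve_cmC, ← side_ev hE D.a_ne] at h6
      apply hTU
      refine ⟨D.formX_ne T, fun c => ?_⟩
      have ha0 : ev a ≠ 0 := fun h => D.a_ne (((hE k).2.2 a).mp h)
      have h0 : ev (side_form a b T) ≠ 0 := fun h => D.formX_ne T (((hE k).2.2 _).mp h)
      have h7 : ev c / ev (side_form a b T) = ev c / ev a * (ev (side_form a b T) / ev a)⁻¹ := by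
        field_simp
      rw [h7]
      exact mul_mem (hUa.2 c) h6
    have hass : Associated p (X 1 - MvPolynomial.C (side_x a b T)) :=
      hp.1.associated_of_dvd (side_irr _) hdvd
    refine ⟨side_irr _, fun f => ?_⟩
    rw [hp.2 f]
    simp only [hass.dvd_iff_dvd_left]

/-- The exceptional curves over the side. -/
lemma side_exc (hE : EvStmt) (hX : ExcStmt)
    (D : side_D C P a a' b) {O : Subalgebra k (F k)} {T : Pt k} (hTM : T ∈ C.M) (hTP : T ≠ P)
    (hO : IsExc T O) (hlam : ev a' / ev a ∈ O) : (side_u0 D).R ≤ O := by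
  obtain ⟨x1, x2, x3, -⟩ := (hX k T).2 O hO
  have haT : a ⬝ᵥ T.rep ≠ 0 := by
    intro haT
    have ha'T : a' ⬝ᵥ T.rep ≠ 0 := by
      intro ha'T
      obtain ⟨e, heT, heP⟩ := hart_sep hTP
      have hbT : b ⬝ᵥ T.rep ≠ 0 := exc_b T.rep_nonzero D.li haT ha'T
      obtain ⟨γ, δ, β, e'⟩ := curve_basis D.li e
      have h1 : γ * (b ⬝ᵥ T.rep) = 0 := by
        rw [← heT, e', ← exc_f_apply T.rep (γ • b + δ • a + β • a')]
        simp only [map_add, map_smul, exc_f_apply, smul_eq_mul, haT, ha'T]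
        ring
      have h2 : γ = 0 := (mul_eq_zero.mp h1).resolve_right hbT
      apply heP
      rw [e', h2, ← exc_f_apply P.rep]
      simp only [map_add, map_smul, exc_f_apply, smul_eq_mul, D.ha, D.ha']
      ring
    have h3 := (x3 a' a ha'T D.a_ne haT).2.1
    rw [inv_div] at h3
    exact h3 hlam
  refine side_u0_le hE D hlam ((x1 a haT).2 b) ?_
  intro Q hQM hQ
  by_cases hQT : Q = T
  · subst hQT
    exact x2 _ _ (D.formX_ne Q) (side_form_T b hQ) (side_form_T a' hQ)
  · refine (x1 _ ?_).2 _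
    intro h
    apply hQT
    apply D.inj Q hQM T hTM hQ haT
    rw [side_form_dot] at h
    have h4 : side_x a b Q * (a ⬝ᵥ T.rep) = b ⬝ᵥ T.rep := (sub_eq_zero.mp h).symm
    rw [eq_comm]
    unfold side_x at h4 ⊢
    rw [← h4, mul_div_cancel_right₀ _ haT]

end Pool.Agent.Lib.MP_4318ff_ag
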