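import Pool.Agent.Lib.MP_4318ff_ag.Spec.A4

/-!
# MP_4318ff_ag, module B/SideP: polynomial parts at infinity
-/

set_option autoImplicit false

namespace Pool.Agent.Lib.MP_4318ff_ag

variable {k : Type} [Field k]

/-- the monomials in `lam`, `x` and `1/x` -/
theorem sideP_mono (lam x : F k) (hx : x ≠ 0) (f : F k)
    (hf : f ∈ Submonoid.closure ({lam, 1 / x, (1 / x)⁻¹} : Set (F k))) :
    ∃ (i : ℕ) (j : ℤ), f = lam ^ i * x ^ j := by
  induction hf using Submonoid.closure_induction with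
  | mem z hz =>
    rcases hz with rfl | rfl | hz
    · exact ⟨1, 0, by simp⟩
    · exact ⟨0, -1, by simp⟩
    · rw [Set.mem_singleton_iff] at hz
      subst hz
      exact ⟨0, 1, by simp⟩
  | one => exact ⟨0, 0, by simp⟩
  | mul a b _ _ ha hb =>
    obtain ⟨i, j, rfl⟩ := ha
    obtain ⟨i', j', rfl⟩ := hb
    refine ⟨i + i', j + j', ?_⟩
    rw [zpow_add₀ hx, pow_add]
    ring

/-- splitting of Laurent polynomials -/
theorem sideP_split (lam x : F k) (hx : x ≠ 0) (O : Subalgebra k (F k)) (hlam : lam ∈ O)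
    (hpi : 1 / x ∈ O) (p : F k) (hp : p ∈ Algebra.adjoin k ({lam, 1 / x, (1 / x)⁻¹} : Set (F k))) :
    ∃ y ∈ Algebra.adjoin k ({lam, x} : Set (F k)), p - y ∈ O := by
  have h1 : p ∈ Subalgebra.toSubmodule (Algebra.adjoin k ({lam, x} : Set (F k))) ⊔
      Subalgebra.toSubmodule O := by
    rw [← Subalgebra.mem_toSubmodule, Algebra.adjoin_eq_span] at hp
    refine Submodule.span_le.2 ?_ hp
    intro f hf
    obtain ⟨i, j, rfl⟩ := sideP_mono lam x hx f hf
    rcases le_or_gt 0 j with hj | hj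
    · refine Submodule.mem_sup_left ?_
      obtain ⟨n, rfl⟩ := Int.eq_ofNat_of_zero_le hj
      have e : x ^ ((n : ℕ) : ℤ) = x ^ n := zpow_natCast x n
      rw [e, Subalgebra.mem_toSubmodule]
      exact mul_mem (pow_mem (Algebra.subset_adjoin (by simp)) i)
        (pow_mem (Algebra.subset_adjoin (by simp)) n)
    · refine Submodule.mem_sup_right ?_
      obtain ⟨n, hn⟩ := Int.eq_ofNat_of_zero_le (show 0 ≤ -j by omega)
      have e : x ^ j = (1 / x) ^ n := by
        have hj' : j = -(n : ℤ) := by omega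
        rw [hj', zpow_neg, zpow_natCast, one_div, inv_pow]
      rw [e, Subalgebra.mem_toSubmodule]
      exact mul_mem (pow_mem hlam i) (pow_mem hpi n)
  obtain ⟨y, hy, o, ho, rfl⟩ := Submodule.mem_sup.1 h1
  refine ⟨y, hy, ?_⟩
  rw [add_sub_cancel_left]
  exact ho

theorem tSideP : LocStmt → TayStmt → SidePStmt := by
  intro hLoc hTay k _ lam x O hc hc' hO κ f hf
  obtain ⟨hin, -, hun⟩ := (hLoc k (1 / x) lam hc' (MvPolynomial.X 0) hO.1).2 O hO
  have hpi0 : cm (1 / x) lam (MvPolynomial.X 0) = 1 / x := by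
    unfold cm
    rw [MvPolynomial.aeval_X]
    rfl
  have hlam0 : cm (1 / x) lam (MvPolynomial.X 1) = lam := by
    unfold cm
    rw [MvPolynomial.aeval_X]
    rfl
  have hpi : 1 / x ∈ O := by
    rw [← hpi0]
    exact hin _
  have hlam : lam ∈ O := by
    rw [← hlam0]
    exact hin _
  rw [hpi0] at hun
  have hx : x ≠ 0 := by
    intro h0
    apply hun.2.1
    rw [h0]
    simp
  obtain ⟨T, hT, hT1, hT2, hBT, hTinv⟩ := hTay k O (Algebra.adjoin k {lam}) (1 / x) hun
    (Algebra.adjoin_le (by rintro z rfl; exact hlam))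
  have hlamT : lam ∈ T := hBT (Algebra.subset_adjoin rfl)
  have hxT : x ∈ T := by
    have : (1 / x)⁻¹ = x := by rw [one_div, inv_inv]
    rw [← this]
    exact hT2
  have hle : Algebra.adjoin k ({lam, x} ∪ {z | ∃ α β γ : k, β ≠ 0 ∧
      z = (κ β * x + κ α * lam + κ γ)⁻¹}) ≤ T := by
    refine Algebra.adjoin_le ?_
    rintro z (hz | ⟨α, β, γ, hβ, rfl⟩)
    · rcases hz with rfl | hz
      · exact hlamT
      · rw [Set.mem_singleton_iff] at hz
        subst hz
        exact hxT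
    · have hκT : ∀ c : k, κ c ∈ T := fun c => Subalgebra.algebraMap_mem T c
      have hκO : ∀ c : k, κ c ∈ O := fun c => Subalgebra.algebraMap_mem O c
      have h1 : (1 / x) * (κ β * x + κ α * lam + κ γ) ∈ T :=
        mul_mem hT1 (add_mem (add_mem (mul_mem (hκT β) hxT) (mul_mem (hκT α) hlamT)) (hκT γ))
      have h2 : ((1 / x) * (κ β * x + κ α * lam + κ γ))⁻¹ ∈ T := by
        refine hTinv _ h1 β hβ ⟨κ α * lam + κ γ, add_mem (mul_mem (hκO α) hlam) (hκO γ), ?_⟩
        change (1 / x) * (κ β * x + κ α * lam + κ γ) = κ β + (1 / x) * (κ α * lam + κ γ)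
        field_simp
        ring
      have h3 : (κ β * x + κ α * lam + κ γ)⁻¹ = (1 / x) * ((1 / x) * (κ β * x + κ α * lam + κ γ))⁻¹ := by
        rw [mul_inv, ← mul_assoc, mul_inv_cancel₀ (one_div_ne_zero hx), one_mul]
      rw [h3]
      exact mul_mem hT1 h2
  obtain ⟨p, hp, o, ho, rfl⟩ := (hT f).1 (hle hf) 0
  have hp' : p ∈ Algebra.adjoin k ({lam, 1 / x, (1 / x)⁻¹} : Set (F k)) := by
    refine Algebra.adjoin_le ?_ hp
    rintro z (hz | hz)
    · refine Algebra.adjoin_mono ?_ hz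
      rintro w rfl
      simp
    · refine Algebra.subset_adjoin ?_
      exact Or.inr hz
  obtain ⟨y, hy, hyO⟩ := sideP_split lam x hx O hlam hpi p hp'
  refine ⟨y, hy, ?_⟩
  have h4 : p + (1 / x) ^ 0 * o - y = (p - y) + o := by ring
  rw [h4]
  exact add_mem hyO ho

end Pool.Agent.Lib.MP_4318ff_ag
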