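import Pool.Agent.Lib.MP_4318ff_ag.Spec.A4

/-!
# MP_4318ff_ag: polar parts along a line
-/

set_option autoImplicit false

namespace Pool.Agent.Lib.MP_4318ff_ag

/-- The abstract part: `O`, `Y = k[λ, τ]`, `τ = μ / π`. -/
private theorem sidet_aux {k : Type} [Field k] (O : Subalgebra k (F k)) (lam μ π : F k) (G : Set (F k))
    (hlam : lam ∈ O) (hμ : μ ∈ Algebra.adjoin k {lam}) (hμO : μ ∈ O) (hμi : μ⁻¹ ∈ O) (hμ0 : μ ≠ 0)
    (hπ : π ∈ O) (hπ0 : π ≠ 0)
    (hG : ∀ g ∈ G, ∃ (a b c : k), c ≠ 0 ∧ (algebraMap k (F k) c + π)⁻¹ ∈ O ∧ algebraMap k (F k) c + π ≠ 0 ∧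
      g = (algebraMap k (F k) a * lam + algebraMap k (F k) b) * (algebraMap k (F k) c + π)⁻¹) :
    ∀ f ∈ Algebra.adjoin k ({lam, π, π / μ, μ / π} ∪ G),
      ∃ y ∈ Algebra.adjoin k {lam, μ / π}, f - y ∈ O := by
  set Y := Algebra.adjoin k {lam, μ / π} with hY
  have hlamY : lam ∈ Y := Algebra.subset_adjoin (by simp)
  have hτY : μ / π ∈ Y := Algebra.subset_adjoin (by simp)
  have hμY : μ ∈ Y := Algebra.adjoin_mono (by simp) hμ
  have hπτ : π * (μ / π) = μ := mul_div_cancel₀ μ hπ0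
  have hστ : π / μ * (μ / π) = 1 := by field_simp
  have hσO : π / μ ∈ O := by
    rw [div_eq_mul_inv]
    exact O.mul_mem hπ hμi
  -- decomposition
  have hdec : ∀ y ∈ Y, ∃ b ∈ O, b ∈ Y ∧ ∃ y' ∈ Y, y = b + μ / π * y' := by
    intro y hy
    induction hy using Algebra.adjoin_induction with
    | mem z hz =>
      rcases hz with rfl | hz
      · exact ⟨z, hlam, hlamY, 0, Y.zero_mem, by rw [mul_zero, add_zero]⟩
      · exact ⟨0, O.zero_mem, Y.zero_mem, 1, Y.one_mem, by rw [Set.mem_singleton_iff.1 hz, mul_one, zero_add]⟩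
    | algebraMap c => exact ⟨_, O.algebraMap_mem c, Y.algebraMap_mem c, 0, Y.zero_mem, by rw [mul_zero, add_zero]⟩
    | add u v _ _ hu hv =>
      obtain ⟨b, hb, hb', y', hy', h1⟩ := hu
      obtain ⟨b2, hb2, hb2', y2, hy2, h2⟩ := hv
      refine ⟨b + b2, O.add_mem hb hb2, Y.add_mem hb' hb2', y' + y2, Y.add_mem hy' hy2, ?_⟩
      rw [h1, h2]
      ring
    | mul u v _ _ hu hv =>
      obtain ⟨b, hb, hb', y', hy', h1⟩ := hu
      obtain ⟨b2, hb2, hb2', y2, hy2, h2⟩ := hv
      refine ⟨b * b2, O.mul_mem hb hb2, Y.mul_mem hb' hb2', y' * b2 + b * y2 + μ / π * (y' * y2), ?_, ?_⟩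
      · exact Y.add_mem (Y.add_mem (Y.mul_mem hy' hb2') (Y.mul_mem hb' hy2)) (Y.mul_mem hτY (Y.mul_mem hy' hy2))
      · rw [h1, h2]
        ring
  -- poles
  have hpole : ∀ y ∈ Y, ∃ N : ℕ, π ^ N * y ∈ O := by
    intro y hy
    induction hy using Algebra.adjoin_induction with
    | mem z hz =>
      rcases hz with rfl | hz
      · exact ⟨0, by rw [pow_zero, one_mul]; exact hlam⟩
      · exact ⟨1, by rw [Set.mem_singleton_iff.1 hz, pow_one, hπτ]; exact hμO⟩
    | algebraMap c => exact ⟨0, by rw [pow_zero, one_mul]; exact O.algebraMap_mem c⟩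
    | add u v _ _ hu hv =>
      obtain ⟨m, hm⟩ := hu
      obtain ⟨m', hm'⟩ := hv
      refine ⟨m + m', ?_⟩
      have h1 : π ^ (m + m') * (u + v) = π ^ m' * (π ^ m * u) + π ^ m * (π ^ m' * v) := by
        rw [pow_add]
        ring
      rw [h1]
      exact O.add_mem (O.mul_mem (O.pow_mem hπ _) hm) (O.mul_mem (O.pow_mem hπ _) hm')
    | mul u v _ _ hu hv =>
      obtain ⟨m, hm⟩ := hu
      obtain ⟨m', hm'⟩ := hv
      refine ⟨m + m', ?_⟩
      have h1 : π ^ (m + m') * (u * v) = (π ^ m * u) * (π ^ m' * v) := by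
        rw [pow_add]
        ring
      rw [h1]
      exact O.mul_mem hm hm'
  -- the multipliers of `Y + O`
  let M : Subalgebra k (F k) :=
    { carrier := {f | ∀ s, (∃ y ∈ Y, s - y ∈ O) → ∃ y ∈ Y, f * s - y ∈ O}
      mul_mem' := by
        intro f g hf hg s hs
        rw [mul_assoc]
        exact hf _ (hg s hs)
      add_mem' := by
        intro f g hf hg s hs
        obtain ⟨y, hy, h1⟩ := hf s hs
        obtain ⟨y', hy', h2⟩ := hg s hs
        refine ⟨y + y', Y.add_mem hy hy', ?_⟩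
        have h3 : (f + g) * s - (y + y') = (f * s - y) + (g * s - y') := by ring
        rw [h3]
        exact O.add_mem h1 h2
      algebraMap_mem' := by
        intro c s hs
        obtain ⟨y, hy, h1⟩ := hs
        refine ⟨algebraMap k (F k) c * y, Y.mul_mem (Y.algebraMap_mem c) hy, ?_⟩
        rw [← mul_sub]
        exact O.mul_mem (O.algebraMap_mem c) h1 }
  have hmemM : ∀ f, f ∈ M ↔ ∀ s, (∃ y ∈ Y, s - y ∈ O) → ∃ y ∈ Y, f * s - y ∈ O := fun f => Iff.rfl
  have hlamM : lam ∈ M := by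
    rw [hmemM]
    rintro s ⟨y, hy, h1⟩
    refine ⟨lam * y, Y.mul_mem hlamY hy, ?_⟩
    rw [← mul_sub]
    exact O.mul_mem hlam h1
  have hπM : π ∈ M := by
    rw [hmemM]
    rintro s ⟨y, hy, h1⟩
    obtain ⟨b, hb, -, y', hy', h2⟩ := hdec y hy
    refine ⟨μ * y', Y.mul_mem hμY hy', ?_⟩
    have h3 : π * s - μ * y' = π * (s - y) + π * b := by
      rw [h2, mul_sub, mul_add, ← mul_assoc π (μ / π), hπτ]
      ring
    rw [h3]
    exact O.add_mem (O.mul_mem hπ h1) (O.mul_mem hπ hb)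
  have hσM : π / μ ∈ M := by
    rw [hmemM]
    rintro s ⟨y, hy, h1⟩
    obtain ⟨b, hb, -, y', hy', h2⟩ := hdec y hy
    refine ⟨y', hy', ?_⟩
    have h3 : π / μ * s - y' = π / μ * (s - y) + π / μ * b := by
      rw [h2, mul_sub, mul_add, ← mul_assoc (π / μ) (μ / π), hστ, one_mul]
      ring
    rw [h3]
    exact O.add_mem (O.mul_mem hσO h1) (O.mul_mem hσO hb)
  have hSadd : ∀ f g, (∃ y ∈ Y, f - y ∈ O) → (∃ y ∈ Y, g - y ∈ O) → ∃ y ∈ Y, f + g - y ∈ O := by
    rintro f g ⟨y, hy, h1⟩ ⟨y', hy', h2⟩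
    refine ⟨y + y', Y.add_mem hy hy', ?_⟩
    have h3 : f + g - (y + y') = (f - y) + (g - y') := by ring
    rw [h3]
    exact O.add_mem h1 h2
  have hcM : ∀ c : k, c ≠ 0 → (algebraMap k (F k) c + π)⁻¹ ∈ O → algebraMap k (F k) c + π ≠ 0 →
      (algebraMap k (F k) c + π)⁻¹ ∈ M := by
    intro c hc hO h0
    rw [hmemM]
    rintro s ⟨y, hy, h1⟩
    obtain ⟨N, hN⟩ := hpole y hy
    have hκ : algebraMap k (F k) c * algebraMap k (F k) c⁻¹ = 1 := by
      rw [← map_mul, mul_inv_cancel₀ hc, map_one]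
    set κ := algebraMap k (F k) c⁻¹ with hκd
    set w := (algebraMap k (F k) c + π)⁻¹ with hw
    have hu : (κ * ∑ j ∈ Finset.range N, (-(κ * π)) ^ j) ∈ M :=
      M.mul_mem (M.algebraMap_mem _) (M.sum_mem fun j _ =>
        M.pow_mem (M.neg_mem (M.mul_mem (M.algebraMap_mem _) hπM)) j)
    have hw2 : w = κ * (∑ j ∈ Finset.range N, (-(κ * π)) ^ j) + (-(κ * π)) ^ N * w := by
      have h3 := mul_neg_geom_sum (-(κ * π)) N
      have h4 : (algebraMap k (F k) c + π) * κ = 1 - -(κ * π) := by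
        rw [add_mul, hκ]
        ring
      have h5 : (algebraMap k (F k) c + π) * (κ * ∑ j ∈ Finset.range N, (-(κ * π)) ^ j) =
          1 - (-(κ * π)) ^ N := by
        rw [← mul_assoc, h4, h3]
      apply mul_left_cancel₀ h0
      have h6 : (algebraMap k (F k) c + π) * w = 1 := mul_inv_cancel₀ h0
      rw [mul_add, h5]
      calc (algebraMap k (F k) c + π) * w = 1 := h6
        _ = 1 - (-(κ * π)) ^ N + (-(κ * π)) ^ N * ((algebraMap k (F k) c + π) * w) := by
          rw [h6]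
          ring
        _ = _ := by ring
    obtain ⟨z, hz, h7⟩ := (hmemM _).1 hu y ⟨y, hy, by rw [sub_self]; exact O.zero_mem⟩
    refine ⟨z, hz, ?_⟩
    have h8 : w * s - z = w * (s - y) + (((κ * ∑ j ∈ Finset.range N, (-(κ * π)) ^ j) * y - z) +
        (-κ) ^ N * w * (π ^ N * y)) := by
      have h9 : (-(κ * π)) ^ N = (-κ) ^ N * π ^ N := by
        rw [← mul_pow]
        congr 1
        ring
      have h10 : w * y = (κ * ∑ j ∈ Finset.range N, (-(κ * π)) ^ j) * y + (-κ) ^ N * w * (π ^ N * y) := by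
        calc w * y = (κ * (∑ j ∈ Finset.range N, (-(κ * π)) ^ j) + (-(κ * π)) ^ N * w) * y := by
              rw [← hw2]
          _ = (κ * ∑ j ∈ Finset.range N, (-(κ * π)) ^ j) * y + (-(κ * π)) ^ N * w * y := by ring
          _ = _ := by
            rw [h9]
            ring
      rw [mul_sub, h10]
      ring
    rw [h8]
    exact O.add_mem (O.mul_mem hO h1) (O.add_mem h7 (O.mul_mem (O.mul_mem
      (O.pow_mem (O.neg_mem (O.algebraMap_mem _)) _) hO) hN))
  have hGM : ∀ g ∈ G, g ∈ M := by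
    intro g hg
    obtain ⟨a, b, c, hc, h1, h2, rfl⟩ := hG g hg
    exact M.mul_mem (M.add_mem (M.mul_mem (M.algebraMap_mem _) hlamM) (M.algebraMap_mem _)) (hcM c hc h1 h2)
  have hfin : ∀ f ∈ Algebra.adjoin k ({lam, π, π / μ, μ / π} ∪ G), ∃ m : ℕ, f * (π / μ) ^ m ∈ M := by
    intro f hf
    induction hf using Algebra.adjoin_induction with
    | mem z hz =>
      rcases hz with hz | hz
      · rcases hz with rfl | rfl | rfl | hz
        · exact ⟨0, by rw [pow_zero, mul_one]; exact hlamM⟩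
        · exact ⟨0, by rw [pow_zero, mul_one]; exact hπM⟩
        · exact ⟨0, by rw [pow_zero, mul_one]; exact hσM⟩
        · refine ⟨1, ?_⟩
          rw [Set.mem_singleton_iff.1 hz, pow_one, mul_comm, hστ]
          exact M.one_mem
      · exact ⟨0, by rw [pow_zero, mul_one]; exact hGM z hz⟩
    | algebraMap c => exact ⟨0, by rw [pow_zero, mul_one]; exact M.algebraMap_mem c⟩
    | add u v _ _ hu hv =>
      obtain ⟨m, hm⟩ := hu
      obtain ⟨m', hm'⟩ := hv
      refine ⟨m + m', ?_⟩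
      have h1 : (u + v) * (π / μ) ^ (m + m') = (π / μ) ^ m' * (u * (π / μ) ^ m) +
          (π / μ) ^ m * (v * (π / μ) ^ m') := by
        rw [pow_add]
        ring
      rw [h1]
      exact M.add_mem (M.mul_mem (M.pow_mem hσM _) hm) (M.mul_mem (M.pow_mem hσM _) hm')
    | mul u v _ _ hu hv =>
      obtain ⟨m, hm⟩ := hu
      obtain ⟨m', hm'⟩ := hv
      refine ⟨m + m', ?_⟩
      have h1 : (u * v) * (π / μ) ^ (m + m') = (u * (π / μ) ^ m) * (v * (π / μ) ^ m') := by
        rw [pow_add]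
        ring
      rw [h1]
      exact M.mul_mem hm hm'
  intro f hf
  obtain ⟨m, hm⟩ := hfin f hf
  obtain ⟨y, hy, h1⟩ := (hmemM _).1 hm ((μ / π) ^ m) ⟨(μ / π) ^ m, Y.pow_mem hτY m, by
    rw [sub_self]; exact O.zero_mem⟩
  refine ⟨y, hy, ?_⟩
  rw [mul_assoc, ← mul_pow, hστ, one_pow, mul_one] at h1
  exact h1

theorem tSideT : LocStmt → TayStmt → SideTStmt := by
  intro hLoc _ k _ lam x l t pts O hcoord hloc hpts
  intro κ f hf
  obtain ⟨-, hL⟩ := hLoc k lam x hcoord _ hloc.1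
  obtain ⟨hcm, hinv, hunif⟩ := hL O hloc
  have hcmC : ∀ c : k, cm lam x (MvPolynomial.C c) = κ c := by
    intro c
    simp [cm, κ]
  have hcm0 : cm lam x (MvPolynomial.X 0) = lam := by simp [cm]
  have hcm1 : cm lam x (MvPolynomial.X 1) = x := by simp [cm]
  have hπe : cm lam x (MvPolynomial.X 1 - MvPolynomial.C t) = x - κ t := by
    rw [map_sub, hcm1, hcmC]
  have hμe : cm lam x (MvPolynomial.X 0 - MvPolynomial.C l) = lam - κ l := by
    rw [map_sub, hcm0, hcmC]
  have hμn : ¬ (MvPolynomial.X 1 - MvPolynomial.C t : MvPolynomial (Fin 2) k) ∣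
      MvPolynomial.X 0 - MvPolynomial.C l := by
    rintro ⟨q, hq⟩
    have h1 := congrArg (MvPolynomial.eval ![l + 1, t]) hq
    simp at h1
  have hμp : (MvPolynomial.X 0 - MvPolynomial.C l : MvPolynomial (Fin 2) k) ≠ 0 := by
    intro h
    apply hμn
    rw [h]
    exact dvd_zero _
  have hμ0 : lam - κ l ≠ 0 := by
    rw [← hμe]
    intro h
    exact hμp (hcoord.1 (by rw [h, map_zero]))
  have hπ0 : x - κ t ≠ 0 := by
    intro h
    apply hunif.2.1
    rw [hπe, h, inv_zero]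
    exact O.zero_mem
  have hmain := sidet_aux O lam (lam - κ l) (x - κ t)
    {z | ∃ q ∈ pts, z = (lam - κ q.1) / (x - κ q.2)}
    (hcm0 ▸ hcm _)
    (Subalgebra.sub_mem _ (Algebra.subset_adjoin (by simp)) (Subalgebra.algebraMap_mem _ l))
    (hμe ▸ hcm _) (by rw [← hμe]; exact (hinv _ hμp).2 hμn) hμ0 (hπe ▸ hcm _) hπ0 (by
      rintro g ⟨q, hq, rfl⟩
      have hc : t - q.2 ≠ 0 := sub_ne_zero.2 fun h => hpts q hq h.symm
      have hn : ¬ (MvPolynomial.X 1 - MvPolynomial.C t : MvPolynomial (Fin 2) k) ∣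
          MvPolynomial.X 1 - MvPolynomial.C q.2 := by
        rintro ⟨p', hp'⟩
        have h1 := congrArg (MvPolynomial.eval ![0, t]) hp'
        simp at h1
        exact hc h1
      have hp : (MvPolynomial.X 1 - MvPolynomial.C q.2 : MvPolynomial (Fin 2) k) ≠ 0 := by
        intro h
        apply hn
        rw [h]
        exact dvd_zero _
      have he : cm lam x (MvPolynomial.X 1 - MvPolynomial.C q.2) = κ (t - q.2) + (x - κ t) := by
        rw [map_sub, hcm1, hcmC, map_sub]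
        ring
      refine ⟨1, -q.1, t - q.2, hc, ?_, ?_, ?_⟩
      · rw [← he]
        exact (hinv _ hp).2 hn
      · rw [← he]
        intro h
        exact hp (hcoord.1 (by rw [h, map_zero]))
      · have h1 : algebraMap k (F k) (t - q.2) + (x - κ t) = x - κ q.2 := by
          rw [map_sub]
          ring
        rw [h1, map_one, one_mul, map_neg, div_eq_mul_inv, sub_eq_add_neg])
  apply hmain
  refine (Algebra.adjoin_le ?_) hf
  rintro z (hz | hz)
  · rcases hz with rfl | rfl | rfl | hz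
    · exact Algebra.subset_adjoin (by simp)
    · have h1 : z = (z - κ t) + κ t := by ring
      rw [h1]
      refine Subalgebra.add_mem _ (Algebra.subset_adjoin (by simp)) (Subalgebra.algebraMap_mem _ t)
    · exact Algebra.subset_adjoin (by simp)
    · exact Algebra.subset_adjoin (by rw [Set.mem_singleton_iff.1 hz]; simp)
  · exact Algebra.subset_adjoin (Or.inr hz)

end Pool.Agent.Lib.MP_4318ff_ag
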