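import Pool.Agent.Lib.MP_4318ff_ag.Spec.A4

/-!
# MP_4318ff_ag: expansions
-/

set_option autoImplicit false

namespace Pool.Agent.Lib.MP_4318ff_ag

theorem tTay : TayStmt := by
  intro k _ O B π hπ hB
  obtain ⟨hπO, hπi, hunif⟩ := hπ
  have hπ0 : π ≠ 0 := by
    intro h
    apply hπi
    rw [h, inv_zero]
    exact O.zero_mem
  set W := Algebra.adjoin k ((B : Set (F k)) ∪ {π, π⁻¹}) with hW
  have hBW : ∀ b ∈ B, b ∈ W := fun b hb => Algebra.subset_adjoin (Or.inl hb)
  have hπW : π ∈ W := Algebra.subset_adjoin (Or.inr (by simp))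
  have hπiW : π⁻¹ ∈ W := Algebra.subset_adjoin (Or.inr (by simp))
  -- the orders of the elements of `W` are bounded below
  have hord : ∀ p ∈ W, ∃ m : ℕ, π ^ m * p ∈ O := by
    intro p hp
    induction hp using Algebra.adjoin_induction with
    | mem x hx =>
      rcases hx with hx | hx
      · exact ⟨0, by rw [pow_zero, one_mul]; exact hB hx⟩
      · rcases hx with rfl | hx
        · exact ⟨0, by rw [pow_zero, one_mul]; exact hπO⟩
        · refine ⟨1, ?_⟩
          rw [Set.mem_singleton_iff.1 hx, pow_one, mul_inv_cancel₀ hπ0]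
          exact O.one_mem
    | algebraMap r => exact ⟨0, by rw [pow_zero, one_mul]; exact O.algebraMap_mem r⟩
    | add x y _ _ hx hy =>
      obtain ⟨m, hm⟩ := hx
      obtain ⟨m', hm'⟩ := hy
      refine ⟨m + m', ?_⟩
      have h1 : π ^ (m + m') * (x + y) = π ^ m' * (π ^ m * x) + π ^ m * (π ^ m' * y) := by
        rw [pow_add]
        ring
      rw [h1]
      exact O.add_mem (O.mul_mem (O.pow_mem hπO _) hm) (O.mul_mem (O.pow_mem hπO _) hm')
    | mul x y _ _ hx hy =>
      obtain ⟨m, hm⟩ := hx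
      obtain ⟨m', hm'⟩ := hy
      refine ⟨m + m', ?_⟩
      have h1 : π ^ (m + m') * (x * y) = (π ^ m * x) * (π ^ m' * y) := by
        rw [pow_add]
        ring
      rw [h1]
      exact O.mul_mem hm hm'
  let T : Subalgebra k (F k) :=
    { carrier := {f | ∀ N : ℕ, ∃ p ∈ W, ∃ o ∈ O, f = p + π ^ N * o}
      mul_mem' := by
        intro f g hf hg N
        have hbd : ∀ f : F k, (∀ N : ℕ, ∃ p ∈ W, ∃ o ∈ O, f = p + π ^ N * o) →
            ∃ m : ℕ, π ^ m * f ∈ O := by
          intro f hf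
          obtain ⟨p, hp, o, ho, h⟩ := hf 0
          obtain ⟨m, hm⟩ := hord p hp
          refine ⟨m, ?_⟩
          rw [h, pow_zero, one_mul, mul_add]
          exact O.add_mem hm (O.mul_mem (O.pow_mem hπO _) ho)
        obtain ⟨m1, hm1⟩ := hbd f hf
        obtain ⟨m2, hm2⟩ := hbd g hg
        obtain ⟨p, hp, o, ho, h1⟩ := hf (N + m1 + m2)
        obtain ⟨q, hq, o', ho', h2⟩ := hg (N + m1 + m2)
        refine ⟨p * q, W.mul_mem hp hq, π ^ m1 * ((π ^ m2 * g) * o) + π ^ m2 * ((π ^ m1 * f) * o') -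
          π ^ (N + m1 + m2) * (π ^ (m1 + m2) * (o * o')), ?_, ?_⟩
        · refine O.sub_mem (O.add_mem (O.mul_mem (O.pow_mem hπO _) (O.mul_mem hm2 ho))
            (O.mul_mem (O.pow_mem hπO _) (O.mul_mem hm1 ho'))) ?_
          exact O.mul_mem (O.pow_mem hπO _) (O.mul_mem (O.pow_mem hπO _) (O.mul_mem ho ho'))
        · have h3 : p = f - π ^ (N + m1 + m2) * o := by rw [h1]; ring
          have h4 : q = g - π ^ (N + m1 + m2) * o' := by rw [h2]; ring
          rw [h3, h4]
          ring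
      add_mem' := by
        intro f g hf hg N
        obtain ⟨p, hp, o, ho, h1⟩ := hf N
        obtain ⟨q, hq, o', ho', h2⟩ := hg N
        refine ⟨p + q, W.add_mem hp hq, o + o', O.add_mem ho ho', ?_⟩
        rw [h1, h2]
        ring
      algebraMap_mem' := by
        intro r N
        exact ⟨algebraMap k (F k) r, W.algebraMap_mem r, 0, O.zero_mem, by rw [mul_zero, add_zero]⟩ }
  have hWT : ∀ p ∈ W, p ∈ T := fun p hp N => ⟨p, hp, 0, O.zero_mem, by rw [mul_zero, add_zero]⟩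
  have hmem : ∀ f, f ∈ T ↔ ∀ N : ℕ, ∃ p ∈ W, ∃ o ∈ O, f = p + π ^ N * o := fun f => Iff.rfl
  refine ⟨T, hmem, hWT _ hπW, hWT _ hπiW, fun b hb => hWT _ (hBW b hb), ?_⟩
  intro f hf c hc ho
  obtain ⟨o1, ho1, hfo⟩ := ho
  by_cases hf0 : f = 0
  · rw [hf0, inv_zero]
    exact T.zero_mem
  -- `f` is a unit of `O`
  have hcc : algebraMap k (F k) c * algebraMap k (F k) c⁻¹ = 1 := by
    rw [← map_mul, mul_inv_cancel₀ hc, map_one]
  have hfO : f ∈ O := by
    rw [hfo]
    exact O.add_mem (O.algebraMap_mem c) (O.mul_mem hπO ho1)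
  have hfi : f⁻¹ ∈ O := by
    obtain ⟨e, u, hu, hui, hfe⟩ := hunif f hf0
    have hu0 : u ≠ 0 := by
      intro h
      rw [h, mul_zero] at hfe
      exact hf0 hfe
    rcases lt_trichotomy e 0 with he | he | he
    · exfalso
      apply hπi
      obtain ⟨m, hm⟩ : ∃ m : ℕ, e = -((m : ℤ) + 1) := ⟨(-e - 1).toNat, by omega⟩
      have h1 : π⁻¹ = π ^ m * (f * u⁻¹) := by
        rw [hfe, hm, mul_assoc, mul_inv_cancel₀ hu0, mul_one, zpow_neg, zpow_add₀ hπ0,
          zpow_natCast, zpow_one, mul_inv, ← mul_assoc, mul_inv_cancel₀ (pow_ne_zero m hπ0),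
          one_mul]
      rw [h1]
      exact O.mul_mem (O.pow_mem hπO _) (O.mul_mem hfO hui)
    · rw [hfe, he, zpow_zero, one_mul]
      exact hui
    · exfalso
      apply hπi
      obtain ⟨m, hm⟩ : ∃ m : ℕ, e = (m : ℤ) + 1 := ⟨(e - 1).toNat, by omega⟩
      have h1 : f = π * (π ^ m * u) := by
        rw [hfe, hm, zpow_add₀ hπ0, zpow_natCast, zpow_one]
        ring
      have h2 : π⁻¹ = algebraMap k (F k) c⁻¹ * (π ^ m * u - o1) := by
        have h3 : algebraMap k (F k) c = π * (π ^ m * u - o1) := by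
          rw [mul_sub, ← h1, hfo]
          ring
        apply inv_eq_of_mul_eq_one_right
        calc π * (algebraMap k (F k) c⁻¹ * (π ^ m * u - o1))
            = algebraMap k (F k) c⁻¹ * (π * (π ^ m * u - o1)) := by ring
          _ = 1 := by rw [← h3, mul_comm]; exact hcc
      rw [h2]
      exact O.mul_mem (O.algebraMap_mem _) (O.sub_mem (O.mul_mem (O.pow_mem hπO _) hu) ho1)
  -- the geometric series
  set κ := algebraMap k (F k) c⁻¹ with hκ
  set g := κ * o1 with hg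
  have hgO : g ∈ O := O.mul_mem (O.algebraMap_mem _) ho1
  have hw : κ * f = 1 + π * g := by
    rw [hfo, hg, mul_add, mul_comm κ (algebraMap k (F k) c), hcc]
    ring
  have hgT : g ∈ T := by
    have h1 : g = π⁻¹ * (κ * f - 1) := by
      rw [hw]
      field_simp
      ring
    rw [h1]
    exact T.mul_mem (hWT _ hπiW) (T.sub_mem (T.mul_mem (T.algebraMap_mem _) hf) T.one_mem)
  intro N
  have hS : (∑ j ∈ Finset.range N, (-(π * g)) ^ j) ∈ T := by
    apply T.sum_mem
    intro j _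
    exact T.pow_mem (T.neg_mem (T.mul_mem (hWT _ hπW) hgT)) j
  obtain ⟨p, hp, o, ho, h1⟩ := (T.mul_mem (T.algebraMap_mem c⁻¹) hS) N
  refine ⟨p, hp, o + κ * ((-g) ^ N * (algebraMap k (F k) c * f⁻¹)), ?_, ?_⟩
  · exact O.add_mem ho (O.mul_mem (O.algebraMap_mem _) (O.mul_mem (O.pow_mem (O.neg_mem hgO) _)
      (O.mul_mem (O.algebraMap_mem _) hfi)))
  · have h2 : (1 + π * g) * (∑ j ∈ Finset.range N, (-(π * g)) ^ j) = 1 - (-(π * g)) ^ N := by
      have h3 := mul_neg_geom_sum (-(π * g)) N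
      rw [← h3]
      ring
    have h4 : (-(π * g)) ^ N = π ^ N * (-g) ^ N := by
      rw [← mul_pow]
      congr 1
      ring
    have h5 : f * (κ * ∑ j ∈ Finset.range N, (-(π * g)) ^ j) = 1 - π ^ N * (-g) ^ N := by
      rw [← h4, ← h2, ← hw]
      ring
    have h6 : f⁻¹ = κ * (∑ j ∈ Finset.range N, (-(π * g)) ^ j) + π ^ N * ((-g) ^ N * f⁻¹) := by
      apply mul_left_cancel₀ hf0
      rw [mul_inv_cancel₀ hf0, mul_add, h5]
      have h7 : f * (π ^ N * ((-g) ^ N * f⁻¹)) = π ^ N * (-g) ^ N * (f * f⁻¹) := by ring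
      rw [h7, mul_inv_cancel₀ hf0]
      ring
    have h8 : κ * ((-g) ^ N * (algebraMap k (F k) c * f⁻¹)) = (-g) ^ N * f⁻¹ := by
      calc κ * ((-g) ^ N * (algebraMap k (F k) c * f⁻¹))
          = (algebraMap k (F k) c * κ) * ((-g) ^ N * f⁻¹) := by ring
        _ = _ := by rw [hcc, one_mul]
    rw [mul_add, h8, ← add_assoc, ← h1]
    exact h6

end Pool.Agent.Lib.MP_4318ff_ag
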