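import Pool.Agent.Lib.MP_4318ff_ag.Spec.A4

/-!
# MP_4318ff_ag: invariant cocycles
-/

set_option autoImplicit false

namespace Pool.Agent.Lib.MP_4318ff_ag

theorem tCaseC2 : DescStmt → S2FStmt → CaseFStmt → CaseC2Stmt := by
  intro hDesc hS2F hCaseF k _ _ _ r n C K _ _ _ _ _ _ hrig hr hn hroots D hcoc hinv hreg P hP
  obtain ⟨d1, d2⟩ := hDesc k r n C K hn hroots
  have hinj : Function.Injective (algebraMap (F k) K) := (algebraMap (F k) K).injective
  have hd : ∀ u v, ∃ δ : Derivation k (F k) (F k),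
      (∀ f, D u v (algebraMap (F k) K f) = algebraMap (F k) K (δ f)) ∧
      ∀ P O, IsDiv C O → RegAt C n P O (D u v) → RegF C P O δ :=
    fun u v => d1 (D u v) fun g => hinv g u v
  choose d hd3 hd4 using hd
  have hdc : ∀ u v w, d u v + d v w = d u w := by
    intro u v w
    apply Derivation.ext
    intro f
    apply hinj
    rw [Derivation.add_apply, map_add, ← hd3, ← hd3, ← hd3, ← Derivation.add_apply, hcoc]
  have hE : ∀ P ∈ C.M, ExtF P d := fun P hP => hS2F k r C P hP d hdc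
    fun u v O hO hu hv => hd4 u v P O hO (hreg P hP u v O hO hu hv)
  obtain ⟨δ, hδ1, hδ2⟩ := hCaseF k r C hrig hr d hdc hE P hP
  have hΔ : ∀ u, ∃ Δ : Derivation k K K,
      (∀ f, Δ (algebraMap (F k) K f) = algebraMap (F k) K (δ u f)) ∧
      ∀ P O, RegF C P O (δ u) → RegAt C n P O Δ := fun u => d2 (δ u)
  choose Δ hΔ1 hΔ2 using hΔ
  refine ⟨Δ, fun u O hO hu => hΔ2 u P O (hδ1 u O hO hu), fun u v c c' hc hc' => ?_⟩
  rw [hd3, hδ2 u v c c' hc hc', Derivation.sub_apply, Derivation.sub_apply, map_sub, hΔ1, hΔ1]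

end Pool.Agent.Lib.MP_4318ff_ag
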