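import Pool.Agent.Lib.MP_4318ff_ag.Spec.A4
import Pool.Agent.Lib.MP_4318ff_ag.A.Hart

/-!
# MP_4318ff_ag, B/Side1: lemmas for the vanishing of the cohomology of the sides
-/

set_option autoImplicit false

namespace Pool.Agent.Lib.MP_4318ff_ag

open MvPolynomial
open scoped LinearAlgebra.Projectivization

variable {k : Type} [Field k]

lemma side_irr (t : k) : Irreducible (X 1 - C t : MvPolynomial (Fin 2) k) := by
  have hc : coeff (Finsupp.single 1 1) (X 1 - C t : MvPolynomial (Fin 2) k) = 1 := by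
    rw [coeff_sub, coeff_X, coeff_C, if_pos rfl, if_neg, sub_zero]
    intro h
    have := DFunLike.congr_fun h 1
    simp at this
  apply irreducible_of_totalDegree_eq_one
  · apply le_antisymm
    · refine (totalDegree_sub _ _).trans (max_le ?_ ?_)
      · rw [totalDegree_X]
      · rw [totalDegree_C]
        exact Nat.zero_le 1
    · rw [← not_lt, Nat.lt_one_iff, totalDegree_eq_zero_iff]
      intro h
      have h1 := h (Finsupp.single 1 1) (by
        rw [mem_support_iff, hc]
        exact one_ne_zero) 1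
      rw [Finsupp.single_eq_same] at h1
      exact one_ne_zero h1
  · intro x hx
    have := hx (Finsupp.single 1 1)
    rw [hc] at this
    exact isUnit_of_dvd_one this

/-- Avoiding finitely many conditions. -/
lemma side_avoid [Infinite k] (V : Finset (Fin 3 → k)) (hV : ∀ v ∈ V, v ≠ 0) :
    ∃ b : Fin 3 → k, ∀ v ∈ V, b ⬝ᵥ v ≠ 0 := by
  classical
  have h1 : ∏ v ∈ V, (Polynomial.C (v 0) + Polynomial.C (v 1) * Polynomial.X +
      Polynomial.C (v 2) * Polynomial.X ^ 2) ≠ 0 := by
    rw [Finset.prod_ne_zero_iff]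
    intro v hv h0
    apply hV v hv
    have e0 := congrArg (fun p => Polynomial.coeff p 0) h0
    have e1 := congrArg (fun p => Polynomial.coeff p 1) h0
    have e2 := congrArg (fun p => Polynomial.coeff p 2) h0
    simp [Polynomial.coeff_X, Polynomial.coeff_C, Polynomial.coeff_X_pow] at e0 e1 e2
    funext i
    fin_cases i
    · exact e0
    · exact e1
    · exact e2
  obtain ⟨t, ht⟩ : ∃ t : k, Polynomial.eval t (∏ v ∈ V, (Polynomial.C (v 0) +
      Polynomial.C (v 1) * Polynomial.X + Polynomial.C (v 2) * Polynomial.X ^ 2)) ≠ 0 := by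
    by_contra hcon
    push Not at hcon
    exact h1 (Polynomial.funext fun t => by rw [hcon t, Polynomial.eval_zero])
  rw [Polynomial.eval_prod, Finset.prod_ne_zero_iff] at ht
  refine ⟨![1, t, t ^ 2], fun v hv h => ht v hv ?_⟩
  simp only [Polynomial.eval_add, Polynomial.eval_mul, Polynomial.eval_C, Polynomial.eval_X,
    Polynomial.eval_pow]
  rw [← h]
  simp only [dotProduct, Fin.sum_univ_three]
  simp
  ring

lemma side_li3 {b c d : Fin 3 → k} (h : LinearIndependent k ![b, c, d]) {x y z : k}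
    (e : x • b + y • c + z • d = 0) : x = 0 ∧ y = 0 ∧ z = 0 := by
  rw [Fintype.linearIndependent_iff] at h
  have h1 := h ![x, y, z] (by
    rw [Fin.sum_univ_three]
    exact e)
  exact ⟨h1 0, h1 1, h1 2⟩

lemma side_perm {b c d : Fin 3 → k} (h : LinearIndependent k ![b, c, d]) :
    LinearIndependent k ![c, d, b] := by
  rw [Fintype.linearIndependent_iff]
  intro g hg
  rw [Fin.sum_univ_three] at hg
  have hg' : g 0 • c + g 1 • d + g 2 • b = 0 := hg
  obtain ⟨h1, h2, h3⟩ := side_li3 h (x := g 2) (y := g 0) (z := g 1) (by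
    rw [← hg']
    module)
  intro i
  fin_cases i
  · exact h2
  · exact h3
  · exact h1

/-- The abscissa of the point `T`. -/
noncomputable def side_x (a b : Fin 3 → k) (T : Pt k) : k := (b ⬝ᵥ T.rep) / (a ⬝ᵥ T.rep)

/-- The form `b - x_T a`. -/
noncomputable def side_form (a b : Fin 3 → k) (T : Pt k) : Fin 3 → k := b - side_x a b T • a

lemma side_form_dot (a b : Fin 3 → k) (Q : Pt k) (p : Fin 3 → k) :
    side_form a b Q ⬝ᵥ p = b ⬝ᵥ p - side_x a b Q * (a ⬝ᵥ p) := by
  unfold side_form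
  rw [sub_dotProduct, smul_dotProduct, smul_eq_mul]

lemma side_form_T {a : Fin 3 → k} (b : Fin 3 → k) {T : Pt k} (h : a ⬝ᵥ T.rep ≠ 0) :
    side_form a b T ⬝ᵥ T.rep = 0 := by
  rw [side_form_dot]
  unfold side_x
  rw [div_mul_cancel₀ _ h, sub_self]

lemma side_ev (hE : EvStmt) {a : Fin 3 → k} (ha : a ≠ 0) (b : Fin 3 → k) (T : Pt k) :
    ev (side_form a b T) / ev a = ev b / ev a - algebraMap k (F k) (side_x a b T) := by
  have ha0 : ev a ≠ 0 := fun h => ha (((hE k).2.2 a).mp h)
  have h1 : side_form a b T = b + (-side_x a b T) • a := by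
    unfold side_form
    module
  rw [h1, (hE k).1, (hE k).2.1, map_neg]
  field_simp
  ring

/-- The data of the side. -/
structure side_D {r : ℕ} (C : Config k r) (P : Pt k) (a a' b : Fin 3 → k) : Prop where
  hP : P ∈ C.M
  ha : a ⬝ᵥ P.rep = 0
  ha' : a' ⬝ᵥ P.rep = 0
  hb : b ⬝ᵥ P.rep ≠ 0
  li : LinearIndependent k ![b, a, a']
  inj : ∀ T ∈ C.M, ∀ T' ∈ C.M, a ⬝ᵥ T.rep ≠ 0 → a ⬝ᵥ T'.rep ≠ 0 →
    side_x a b T = side_x a b T' → T = T'

namespace side_D

variable {r : ℕ} {C : Config k r} {P : Pt k} {a a' b : Fin 3 → k} (D : side_D C P a a' b)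

include D

lemma a_ne : a ≠ 0 := D.li.ne_zero 1

lemma b_ne : b ≠ 0 := D.li.ne_zero 0

lemma a'_ne : a' ≠ 0 := D.li.ne_zero 2

lemma ne_P {Q : Pt k} (h : a ⬝ᵥ Q.rep ≠ 0) : P ≠ Q := by
  rintro rfl
  exact h D.ha

lemma formX_P (Q : Pt k) : side_form a b Q ⬝ᵥ P.rep ≠ 0 := by
  rw [side_form_dot, D.ha, mul_zero, sub_zero]
  exact D.hb

lemma formX_ne (Q : Pt k) : side_form a b Q ≠ 0 := by
  intro h
  apply D.formX_P Q
  rw [h, zero_dotProduct]

lemma liL (Q : Pt k) {x y : k} (e : x • a + y • side_form a a' Q = 0) : x = 0 ∧ y = 0 := by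
  obtain ⟨-, h1, h2⟩ := side_li3 D.li (x := 0) (y := x - y * side_x a a' Q) (z := y) (by
    rw [← e]
    unfold side_form
    module)
  rw [h2, zero_mul, sub_zero] at h1
  exact ⟨h1, h2⟩

lemma formL_ne (Q : Pt k) : side_form a a' Q ≠ 0 := by
  intro h
  have := (D.liL Q (x := 0) (y := 1) (by rw [h]; simp)).2
  exact one_ne_zero this

lemma liXL (Q : Pt k) : LinearIndependent k ![side_form a b Q, side_form a a' Q] := by
  rw [LinearIndependent.pair_iff]
  intro s t h
  obtain ⟨h1, -, h3⟩ := side_li3 D.li (x := s) (y := - s * side_x a b Q - t * side_x a a' Q)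
    (z := t) (by
      rw [← h]
      unfold side_form
      module)
  exact ⟨h1, h3⟩

lemma liXX {Q Q' : Pt k} (h : side_x a b Q ≠ side_x a b Q') :
    LinearIndependent k ![side_form a b Q, side_form a b Q'] := by
  rw [LinearIndependent.pair_iff]
  intro s t h'
  obtain ⟨h1, h2, -⟩ := side_li3 D.li (x := s + t)
    (y := - s * side_x a b Q - t * side_x a b Q') (z := 0) (by
      rw [← h']
      unfold side_form
      module)
  have h3 : t = - s := by linear_combination h1
  rw [h3] at h2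
  have h4 : s * (side_x a b Q' - side_x a b Q) = 0 := by linear_combination h2
  have hs : s = 0 := (mul_eq_zero.mp h4).resolve_right (sub_ne_zero.mpr (Ne.symm h))
  exact ⟨hs, by rw [h3, hs, neg_zero]⟩

/-- Forms vanishing at `Q` are combinations of the two special forms. -/
lemma comb {Q : Pt k} (h : a ⬝ᵥ Q.rep ≠ 0) {c : Fin 3 → k} (hc : c ⬝ᵥ Q.rep = 0) :
    ∃ γ β : k, c = γ • side_form a b Q + β • side_form a a' Q := by
  obtain ⟨γ, δ, β, e⟩ := curve_basis D.li c
  refine ⟨γ, β, ?_⟩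
  have h1 : γ * (b ⬝ᵥ Q.rep) + δ * (a ⬝ᵥ Q.rep) + β * (a' ⬝ᵥ Q.rep) = 0 := by
    rw [← hc, e, ← exc_f_apply Q.rep (γ • b + δ • a + β • a')]
    simp only [map_add, map_smul, exc_f_apply, smul_eq_mul]
  have h2 : δ = - γ * side_x a b Q - β * side_x a a' Q := by
    unfold side_x
    field_simp
    linear_combination h1
  rw [e, h2]
  unfold side_form
  module

end side_D

end Pool.Agent.Lib.MP_4318ff_ag
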